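import Pool.Agent.H18.UV.Common

/-!
Module OPT of MP_5607ba_lc: no order configurations.
-/

set_option autoImplicit false

open Set Filter

namespace Pool.Agent.H18.UV

open Pool.Agent.H72.UV

/-- two copies of a tuple which are ordered give the hypothesis of U2 -/
lemma pair_of {M C : Type} {c : Str M C} {κ ι P : Type} [Finite κ] [Finite ι] [Finite P]
    {e : Str (κ ⊕ ℚ × ι) C} (hb : Below e c) (ho : OrdInv e) (pr : P → ι)
    (hpr : Function.Injective pr)
    (l : List (κ ⊕ ℚ × ι)) (a b : ℚ) (hadj : Adj l a b)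
    (ha : ∀ i, Sum.inr (a, i) ∈ l → ∃ j, i = pr j) (hb2 : ∀ i, Sum.inr (b, i) ∈ l → ∃ j, i = pr j)
    (hne : e (l.map (mapIdx (Equiv.swap a b))) ≠ e l) :
    ∃ (X : Type) (_ : Finite X) (e' : Str (X ⊕ ℚ × P) C), Below e' c ∧ OrdInv e' ∧
      ∃ l' : List (X ⊕ (P ⊕ P)), e' (l'.map (place2 0 1)) ≠ e' (l'.map (place2 1 0)) := by
  classical
  obtain ⟨a', b', ha', hb', hint⟩ := exists_interval hadj
  have hab : a < b := hadj.1
  obtain ⟨θ, hθ, hθ'⟩ := exists_emb ℚ (ha'.trans (hab.trans hb'))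
  let X := {x : κ ⊕ ℚ × ι // x ∈ l ∧ (∀ i, x ≠ Sum.inr (a, i)) ∧ ∀ i, x ≠ Sum.inr (b, i)}
  have hXfin : Finite X := by
    have h : (Set.Finite {x | x ∈ l}) := l.finite_toSet
    exact (h.subset (t := {x | x ∈ l ∧ (∀ i, x ≠ Sum.inr (a, i)) ∧ ∀ i, x ≠ Sum.inr (b, i)})
      fun x hx => hx.1).to_subtype
  let ψ : X ⊕ ℚ × P → κ ⊕ ℚ × ι := fun x => match x with
    | Sum.inl x => x.1
    | Sum.inr (q, i) => Sum.inr (θ q, pr i)
  let ρ : X ⊕ (P ⊕ P) → κ ⊕ ℚ × ι := fun x => match x with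
    | Sum.inl x => x.1
    | Sum.inr (Sum.inl i) => Sum.inr (a, pr i)
    | Sum.inr (Sum.inr i) => Sum.inr (b, pr i)
  have hX : ∀ (x : X) (j : ℚ) (i : ι), x.1 = Sum.inr (j, i) → j ≤ a' ∨ b' ≤ j := by
    intro x j i h
    refine hint j ⟨i, h ▸ x.2.1⟩ ?_ ?_
    · rintro rfl
      exact x.2.2.1 i h
    · rintro rfl
      exact x.2.2.2 i h
  have hψ : Function.Injective ψ := by
    rintro (x | ⟨q, i⟩) (y | ⟨q', j⟩) h
    · exact congrArg Sum.inl (Subtype.ext h)
    · have h' : x.1 = Sum.inr (θ q', pr j) := h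
      rcases hX x _ _ h' with h2 | h2
      · exact absurd (hθ' _).1 (not_lt.2 h2)
      · exact absurd (hθ' _).2 (not_lt.2 h2)
    · have h' : y.1 = Sum.inr (θ q, pr i) := h.symm
      rcases hX y _ _ h' with h2 | h2
      · exact absurd (hθ' _).1 (not_lt.2 h2)
      · exact absurd (hθ' _).2 (not_lt.2 h2)
    · have h' : Sum.inr (θ q, pr i) = (Sum.inr (θ q', pr j) : κ ⊕ ℚ × ι) := h
      obtain ⟨h1, h2⟩ := Prod.mk.inj (Sum.inr_injective h')
      rw [hθ.injective h1, hpr h2]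
  obtain ⟨l', hl'⟩ : ∃ l' : List (X ⊕ (P ⊕ P)), l'.map ρ = l := by
    apply exists_list_map
    intro x hx
    by_cases h1 : ∃ i, x = Sum.inr (a, i)
    · obtain ⟨i, rfl⟩ := h1
      obtain ⟨j, rfl⟩ := ha i hx
      exact ⟨Sum.inr (Sum.inl j), rfl⟩
    · by_cases h2 : ∃ i, x = Sum.inr (b, i)
      · obtain ⟨i, rfl⟩ := h2
        obtain ⟨j, rfl⟩ := hb2 i hx
        exact ⟨Sum.inr (Sum.inr j), rfl⟩
      · exact ⟨Sum.inl ⟨x, hx, fun i h => h1 ⟨i, h⟩, fun i h => h2 ⟨i, h⟩⟩, rfl⟩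
  refine ⟨X, hXfin, fun l => e (l.map ψ), hb.comap hψ, ?_, l', ?_⟩
  · intro L f hf
    show e ((L.map (mapIdx f)).map ψ) = e (L.map ψ)
    rw [List.map_map]
    symm
    apply ordInv_congr ho
    · rintro (x | ⟨q, i⟩) _ <;> rfl
    · have hu : ∀ (q : ℚ) (i : P), Sum.inr (q, i) ∈ L → q ∈ usedIdx L :=
        fun q i h => ⟨i, h⟩
      have hfl : ∀ (q q' : ℚ) (i i' : P), Sum.inr (q, i) ∈ L → Sum.inr (q', i') ∈ L →
          q < q' → f q < f q' := fun q q' i i' h h' hq => hf (hu _ _ h) (hu _ _ h') hq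
      have key : ∀ x ∈ L, ∀ u u' i i', ψ x = Sum.inr (u, i) →
          (ψ ∘ mapIdx f) x = Sum.inr (u', i') → (u = u' ∧ (u ≤ a' ∨ b' ≤ u)) ∨
          ∃ (q : ℚ) (t : P), Sum.inr (q, t) ∈ L ∧ u = θ q ∧ u' = θ (f q) := by
        rintro (x | ⟨q, t⟩) hx u u' i i' h1 h2
        · left
          have e1 : (Sum.inr (u, i) : κ ⊕ ℚ × ι) = Sum.inr (u', i') := h1.symm.trans h2
          obtain ⟨rfl, -⟩ := Prod.mk.inj (Sum.inr_injective e1)
          exact ⟨rfl, hX x _ _ h1⟩
        · right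
          exact ⟨q, t, hx, (Prod.mk.inj (Sum.inr_injective h1)).1.symm,
            (Prod.mk.inj (Sum.inr_injective h2)).1.symm⟩
      intro x hx y hy u v u' v' i1 j1 i1' j1' h1 h2 h3 h4
      rcases key x hx _ _ _ _ h1 h3 with ⟨rfl, hx'⟩ | ⟨q, t, hq, rfl, rfl⟩ <;>
        rcases key y hy _ _ _ _ h2 h4 with ⟨rfl, hy'⟩ | ⟨q', t', hq', rfl, rfl⟩
      · exact ⟨id, id⟩
      · have c1 := hθ' q'
        have c2 := hθ' (f q')
        rcases hx' with hx' | hx' <;> exact ⟨fun h => by linarith, fun h => by linarith⟩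
      · have c1 := hθ' q
        have c2 := hθ' (f q)
        rcases hy' with hy' | hy' <;> exact ⟨fun h => by linarith, fun h => by linarith⟩
      · constructor
        · intro h
          exact hθ (hfl _ _ _ _ hq hq' (hθ.lt_iff_lt.1 h))
        · intro h
          rw [hθ.injective h]
  · have e1 : e ((l'.map (place2 0 1)).map ψ) = e l := by
      rw [List.map_map, ← hl']
      apply ordInv_congr ho
      · rintro (x | i | i) _ <;> rfl
      · have key : ∀ (x : X ⊕ (P ⊕ P)) (u u' : ℚ) (i i' : ι), (ψ ∘ place2 0 1) x = Sum.inr (u, i) →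
            ρ x = Sum.inr (u', i') → (u = u' ∧ (u ≤ a' ∨ b' ≤ u)) ∨ (u = θ 0 ∧ u' = a) ∨
            (u = θ 1 ∧ u' = b) := by
          rintro (x | x | x) u u' i i' h1 h2
          · left
            have e1 : (Sum.inr (u, i) : κ ⊕ ℚ × ι) = Sum.inr (u', i') := h1.symm.trans h2
            obtain ⟨rfl, -⟩ := Prod.mk.inj (Sum.inr_injective e1)
            exact ⟨rfl, hX x _ _ h1⟩
          · exact Or.inr (Or.inl ⟨(Prod.mk.inj (Sum.inr_injective h1)).1.symm,
              (Prod.mk.inj (Sum.inr_injective h2)).1.symm⟩)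
          · exact Or.inr (Or.inr ⟨(Prod.mk.inj (Sum.inr_injective h1)).1.symm,
              (Prod.mk.inj (Sum.inr_injective h2)).1.symm⟩)
        have hlt : θ 0 < θ 1 := hθ (by norm_num)
        have b1 := hθ' 0
        have b2 := hθ' 1
        intro x _ y _ u v u' v' i1 j1 i1' j1' h1 h2 h3 h4
        rcases key x _ _ _ _ h1 h3 with ⟨rfl, hx⟩ | ⟨rfl, rfl⟩ | ⟨rfl, rfl⟩ <;>
          rcases key y _ _ _ _ h2 h4 with ⟨rfl, hy⟩ | ⟨rfl, rfl⟩ | ⟨rfl, rfl⟩ <;>
          first
            | exact ⟨id, id⟩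
            | (rcases hx with hx | hx <;> exact ⟨fun h => by linarith, fun h => by linarith⟩)
            | (rcases hy with hy | hy <;> exact ⟨fun h => by linarith, fun h => by linarith⟩)
            | exact ⟨fun h => by linarith, fun h => by linarith⟩
    have e2 : e ((l'.map (place2 1 0)).map ψ) = e (l.map (mapIdx (Equiv.swap a b))) := by
      rw [List.map_map, ← hl', List.map_map]
      apply ordInv_congr ho
      · rintro (x | i | i) _
        · show Sum.map id Prod.snd x.1 = Sum.map id Prod.snd (mapIdx _ x.1)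
          rcases x.1 with y | ⟨j, t⟩ <;> rfl
        · rfl
        · rfl
      · have key : ∀ (x : X ⊕ (P ⊕ P)) (u u' : ℚ) (i i' : ι), (ψ ∘ place2 1 0) x = Sum.inr (u, i) →
            (mapIdx (Equiv.swap a b) ∘ ρ) x = Sum.inr (u', i') →
            (u = u' ∧ (u ≤ a' ∨ b' ≤ u)) ∨ (u = θ 1 ∧ u' = b) ∨ (u = θ 0 ∧ u' = a) := by
          rintro (x | x | x) u u' i i' h1 h2
          · left
            have h1' : x.1 = Sum.inr (u, i) := h1
            have hja : u ≠ a := by rintro rfl; exact x.2.2.1 _ h1'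
            have hjb : u ≠ b := by rintro rfl; exact x.2.2.2 _ h1'
            have h2' : mapIdx (Equiv.swap a b) x.1 = Sum.inr (u', i') := h2
            rw [h1'] at h2'
            have h3' : (Sum.inr (Equiv.swap a b u, i) : κ ⊕ ℚ × ι) = Sum.inr (u', i') := h2'
            rw [Equiv.swap_apply_of_ne_of_ne hja hjb] at h3'
            obtain ⟨rfl, -⟩ := Prod.mk.inj (Sum.inr_injective h3')
            exact ⟨rfl, hX x _ _ h1'⟩
          · have h2' : (Sum.inr (Equiv.swap a b a, pr x) : κ ⊕ ℚ × ι) = Sum.inr (u', i') := h2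
            rw [Equiv.swap_apply_left] at h2'
            exact Or.inr (Or.inl ⟨(Prod.mk.inj (Sum.inr_injective h1)).1.symm,
              (Prod.mk.inj (Sum.inr_injective h2')).1.symm⟩)
          · have h2' : (Sum.inr (Equiv.swap a b b, pr x) : κ ⊕ ℚ × ι) = Sum.inr (u', i') := h2
            rw [Equiv.swap_apply_right] at h2'
            exact Or.inr (Or.inr ⟨(Prod.mk.inj (Sum.inr_injective h1)).1.symm,
              (Prod.mk.inj (Sum.inr_injective h2')).1.symm⟩)
        have hlt : θ 0 < θ 1 := hθ (by norm_num)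
        have b1 := hθ' 0
        have b2 := hθ' 1
        intro x _ y _ u v u' v' i1 j1 i1' j1' h1 h2 h3 h4
        rcases key x _ _ _ _ h1 h3 with ⟨rfl, hx⟩ | ⟨rfl, rfl⟩ | ⟨rfl, rfl⟩ <;>
          rcases key y _ _ _ _ h2 h4 with ⟨rfl, hy⟩ | ⟨rfl, rfl⟩ | ⟨rfl, rfl⟩ <;>
          first
            | exact ⟨id, id⟩
            | (rcases hx with hx | hx <;> exact ⟨fun h => by linarith, fun h => by linarith⟩)
            | (rcases hy with hy | hy <;> exact ⟨fun h => by linarith, fun h => by linarith⟩)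
            | exact ⟨fun h => by linarith, fun h => by linarith⟩
    show e ((l'.map (place2 0 1)).map ψ) ≠ e ((l'.map (place2 1 0)).map ψ)
    rw [e1, e2]
    exact fun h => hne h.symm

/-- U2 for arbitrary finite types of constants -/
lemma u2_of {M C : Type} (h2 : T_U2) {c : Str M C} {h : ℕ} (hμ : ∀ μ' < 2 * h, ¬ OrdCfg c μ')
    {X : Type} [Finite X] {e : Str (X ⊕ ℚ × Fin h) C} (hb : Below e c) (ho : OrdInv e)
    (l : List (X ⊕ (Fin h ⊕ Fin h)))
    (hl : e (l.map (place2 0 1)) ≠ e (l.map (place2 1 0))) : Many c := by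
  classical
  have f := Finite.equivFin X
  refine h2 M C c h hμ (Nat.card X) (fun l => e (l.map (Sum.map f.symm (Prod.map id id)))) ?_
    (OrdInv_comap ho _ _) ⟨l.map (Sum.map f id), ?_⟩
  · exact hb.comap (Sum.map_injective.2 ⟨f.symm.injective,
      Function.injective_id.prodMap Function.injective_id⟩)
  · have key : ∀ a b : ℚ, ((l.map (Sum.map f id)).map (place2 a b)).map
        (Sum.map f.symm (Prod.map id id)) = l.map (place2 a b) := by
      intro a b
      rw [List.map_map, List.map_map]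
      congr 1
      funext x
      rcases x with x | x | x <;> simp [place2]
    show e (((l.map (Sum.map f id)).map (place2 0 1)).map (Sum.map f.symm (Prod.map id id))) ≠
      e (((l.map (Sum.map f id)).map (place2 1 0)).map (Sum.map f.symm (Prod.map id id)))
    rw [key, key]
    exact hl

theorem opt (hS : T_SWAP) (h1 : T_U1) (h2 : T_U2) : T_OPT := by
  classical
  intro M C c hM
  by_contra hcon
  push Not at hcon
  apply hM
  have hμ : ∀ μ' < Nat.find hcon, ¬ OrdCfg c μ' := fun μ' h => Nat.find_min hcon h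
  obtain ⟨k, p, s, hps, e, hb, ho, l, hl⟩ := Nat.find_spec hcon
  set μ := Nat.find hcon with hμdef
  by_cases hP : ∀ (l : List (Fin k ⊕ ℚ × (Fin p ⊕ Fin s))) (a b : ℚ), Adj l a b →
      (∀ i, Sum.inr (a, i) ∈ l → ∃ j, i = Sum.inl j) →
      (∀ i, Sum.inr (b, i) ∈ l → ∃ j, i = Sum.inl j) →
      e (l.map (mapIdx (Equiv.swap a b))) = e l
  · exact h1 M C c μ hμ k p s e hps hb ho ⟨l, hl⟩ hP
  by_cases hR : ∀ (l : List (Fin k ⊕ ℚ × (Fin p ⊕ Fin s))) (a b : ℚ), Adj l a b →
      (∀ i, Sum.inr (a, i) ∈ l → ∃ j, i = Sum.inr j) →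
      (∀ i, Sum.inr (b, i) ∈ l → ∃ j, i = Sum.inr j) →
      e (l.map (mapIdx (Equiv.swap a b))) = e l
  · -- the mirrored structure
    let sw : Fin k ⊕ ℚ × (Fin s ⊕ Fin p) → Fin k ⊕ ℚ × (Fin p ⊕ Fin s) :=
      Sum.map id (Prod.map id Sum.swap)
    refine h1 M C c μ hμ k s p (fun l => e (l.map sw)) (by omega) ?_ (OrdInv_comap ho _ _)
      ⟨l.map (Sum.map id Sum.swap), ?_⟩ ?_
    · refine hb.comap (Sum.map_injective.2 ⟨Function.injective_id,
        Function.injective_id.prodMap ?_⟩)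
      exact Sum.swap_leftInverse.injective
    · have key : ∀ a b : ℚ, ((l.map (Sum.map id Sum.swap)).map (place a b)).map sw =
          l.map (place b a) := by
        intro a b
        rw [List.map_map, List.map_map]
        congr 1
        funext x
        rcases x with x | x | x <;> rfl
      show e (((l.map (Sum.map id Sum.swap)).map (place 0 1)).map sw) ≠
        e (((l.map (Sum.map id Sum.swap)).map (place 1 0)).map sw)
      rw [key, key]
      exact fun h => hl h.symm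
    · intro L a b hadj ha hb'
      have hmem : ∀ (d : ℚ) (i : Fin p ⊕ Fin s), Sum.inr (d, i) ∈ L.map sw →
          Sum.inr (d, Sum.swap i) ∈ L := by
        intro d i hi
        obtain ⟨x, hx, hx'⟩ := List.mem_map.1 hi
        rcases x with x | ⟨d', t⟩
        · exact absurd hx' (by simp [sw])
        · obtain ⟨rfl, rfl⟩ := Prod.mk.inj (Sum.inr_injective hx')
          rw [id, Sum.swap_swap]
          exact hx
      have h3 := hR (L.map sw) a b ⟨hadj.1, by
        rintro j ⟨i, hi⟩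
        exact hadj.2 j ⟨_, hmem j i hi⟩⟩ (by
        intro i hi
        obtain ⟨j, hj⟩ := ha _ (hmem _ _ hi)
        refine ⟨j, ?_⟩
        have := congrArg Sum.swap hj
        rwa [Sum.swap_swap] at this) (by
        intro i hi
        obtain ⟨j, hj⟩ := hb' _ (hmem _ _ hi)
        refine ⟨j, ?_⟩
        have := congrArg Sum.swap hj
        rwa [Sum.swap_swap] at this)
      show e ((L.map (mapIdx (Equiv.swap a b))).map sw) = e (L.map sw)
      rw [← h3, List.map_map, List.map_map]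
      congr 2
      funext x
      rcases x with x | ⟨d, t⟩ <;> rfl
  -- both parts are ordered with themselves
  push Not at hP hR
  obtain ⟨l1, a1, b1, hadj1, hpa1, hpb1, hne1⟩ := hP
  obtain ⟨l2, a2, b2, hadj2, hpa2, hpb2, hne2⟩ := hR
  have hc1 : μ ≤ {i | Sum.inr (a1, i) ∈ l1}.ncard + {i | Sum.inr (b1, i) ∈ l1}.ncard := by
    by_contra h
    exact hne1 (hS M C c μ hμ _ _ inferInstance inferInstance e hb ho l1 a1 b1 hadj1
      (not_le.1 h))
  have hc2 : μ ≤ {i | Sum.inr (a2, i) ∈ l2}.ncard + {i | Sum.inr (b2, i) ∈ l2}.ncard := by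
    by_contra h
    exact hne2 (hS M C c μ hμ _ _ inferInstance inferInstance e hb ho l2 a2 b2 hadj2
      (not_le.1 h))
  have hbd1 : ∀ d : ℚ, (∀ i, Sum.inr (d, i) ∈ l1 → ∃ j, i = Sum.inl j) →
      {i | Sum.inr (d, i) ∈ l1}.ncard ≤ p := by
    intro d hd
    have h3 : {i | Sum.inr (d, i) ∈ l1} ⊆ range (Sum.inl : Fin p → Fin p ⊕ Fin s) := by
      intro i hi
      obtain ⟨j, rfl⟩ := hd i hi
      exact ⟨j, rfl⟩
    refine (Set.ncard_le_ncard h3 (toFinite _)).trans ?_
    rw [← image_univ, ncard_image_of_injective _ Sum.inl_injective, ncard_univ]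
    simp
  have hbd2 : ∀ d : ℚ, (∀ i, Sum.inr (d, i) ∈ l2 → ∃ j, i = Sum.inr j) →
      {i | Sum.inr (d, i) ∈ l2}.ncard ≤ s := by
    intro d hd
    have h3 : {i | Sum.inr (d, i) ∈ l2} ⊆ range (Sum.inr : Fin s → Fin p ⊕ Fin s) := by
      intro i hi
      obtain ⟨j, rfl⟩ := hd i hi
      exact ⟨j, rfl⟩
    refine (Set.ncard_le_ncard h3 (toFinite _)).trans ?_
    rw [← image_univ, ncard_image_of_injective _ Sum.inr_injective, ncard_univ]
    simp
  have e1 := hbd1 a1 hpa1
  have e2 := hbd1 b1 hpb1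
  have e3 := hbd2 a2 hpa2
  have e4 := hbd2 b2 hpb2
  have hps2 : p = s := by omega
  obtain ⟨X, hX, e', hb', ho', l', hl'⟩ := pair_of hb ho (Sum.inl : Fin p → Fin p ⊕ Fin s)
    Sum.inl_injective l1 a1 b1 hadj1 hpa1 hpb1 hne1
  exact u2_of h2 (h := p) (fun μ' h => hμ μ' (by omega)) hb' ho' l' hl'

end Pool.Agent.H18.UV
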