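import Pool.Agent.H18.UV.Common

/-!
Module SWAP of MP_5607ba_lc: adjacent parts of small total size can be exchanged.
-/

set_option autoImplicit false

open Set Filter

namespace Pool.Agent.H18.UV

open Pool.Agent.H72.UV

theorem swap : T_SWAP := by
  classical
  intro M C c μ hμ κ ι _ _ e hb ho l a b hadj hcard
  by_contra hne
  apply hμ _ hcard
  obtain ⟨a', b', ha', hb', hint⟩ := exists_interval hadj
  have hab : a < b := hadj.1
  have : Countable (ℚ ×ₗ Bool) := inferInstanceAs (Countable (ℚ × Bool))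
  obtain ⟨θ, hθ, hθ'⟩ := exists_emb (ℚ ×ₗ Bool) (ha'.trans (hab.trans hb'))
  let X := {x : κ ⊕ ℚ × ι // x ∈ l ∧ (∀ i, x ≠ Sum.inr (a, i)) ∧ ∀ i, x ≠ Sum.inr (b, i)}
  have hXfin : Finite X := by
    have h : (Set.Finite {x | x ∈ l}) := l.finite_toSet
    exact (h.subset (t := {x | x ∈ l ∧ (∀ i, x ≠ Sum.inr (a, i)) ∧ ∀ i, x ≠ Sum.inr (b, i)})
      fun x hx => hx.1).to_subtype
  let P := {i : ι // Sum.inr (a, i) ∈ l}
  let R := {i : ι // Sum.inr (b, i) ∈ l}
  have hcP : {i | Sum.inr (a, i) ∈ l}.ncard = Nat.card P := rfl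
  have hcR : {i | Sum.inr (b, i) ∈ l}.ncard = Nat.card R := rfl
  rw [hcP, hcR]
  -- the embedding of the new index structure
  let ψ : X ⊕ ℚ × (P ⊕ R) → κ ⊕ ℚ × ι := fun x => match x with
    | Sum.inl x => x.1
    | Sum.inr (q, Sum.inl i) => Sum.inr (θ (toLex (q, false)), i.1)
    | Sum.inr (q, Sum.inr i) => Sum.inr (θ (toLex (q, true)), i.1)
  let ρ : X ⊕ (P ⊕ R) → κ ⊕ ℚ × ι := fun x => match x with
    | Sum.inl x => x.1
    | Sum.inr (Sum.inl i) => Sum.inr (a, i.1)
    | Sum.inr (Sum.inr i) => Sum.inr (b, i.1)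
  have hX : ∀ (x : X) (j : ℚ) (i : ι), x.1 = Sum.inr (j, i) → j ≤ a' ∨ b' ≤ j := by
    intro x j i h
    refine hint j ⟨i, h ▸ x.2.1⟩ ?_ ?_
    · rintro rfl
      exact x.2.2.1 i h
    · rintro rfl
      exact x.2.2.2 i h
  have lt1 : ∀ (q q' : ℚ) (s t : Bool), q < q' → θ (toLex (q, s)) < θ (toLex (q', t)) := by
    intro q q' s t h
    exact hθ (Prod.Lex.toLex_lt_toLex.2 (Or.inl h))
  have lt2 : ∀ q : ℚ, θ (toLex (q, false)) < θ (toLex (q, true)) := by
    intro q
    exact hθ (Prod.Lex.toLex_lt_toLex.2 (Or.inr ⟨rfl, Bool.false_lt_true⟩))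
  have inj : ∀ (q q' : ℚ) (s t : Bool), θ (toLex (q, s)) = θ (toLex (q', t)) →
      q = q' ∧ s = t := by
    intro q q' s t h
    have := hθ.injective h
    have h2 : ((q, s) : ℚ × Bool) = (q', t) := toLex.injective this
    exact Prod.mk.inj h2
  have hψ : Function.Injective ψ := by
    rintro (x | ⟨q, i | i⟩) (y | ⟨q', j | j⟩) h
    · exact congrArg Sum.inl (Subtype.ext h)
    · have h' : x.1 = Sum.inr (θ (toLex (q', false)), j.1) := h
      rcases hX x _ _ h' with h2 | h2
      · exact absurd (hθ' _).1 (not_lt.2 h2)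
      · exact absurd (hθ' _).2 (not_lt.2 h2)
    · have h' : x.1 = Sum.inr (θ (toLex (q', true)), j.1) := h
      rcases hX x _ _ h' with h2 | h2
      · exact absurd (hθ' _).1 (not_lt.2 h2)
      · exact absurd (hθ' _).2 (not_lt.2 h2)
    · have h' : y.1 = Sum.inr (θ (toLex (q, false)), i.1) := h.symm
      rcases hX y _ _ h' with h2 | h2
      · exact absurd (hθ' _).1 (not_lt.2 h2)
      · exact absurd (hθ' _).2 (not_lt.2 h2)
    · have h' : Sum.inr (θ (toLex (q, false)), i.1) =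
        (Sum.inr (θ (toLex (q', false)), j.1) : κ ⊕ ℚ × ι) := h
      obtain ⟨h1, h2⟩ := Prod.mk.inj (Sum.inr_injective h')
      obtain ⟨rfl, -⟩ := inj _ _ _ _ h1
      rw [Subtype.ext h2]
    · have h' : Sum.inr (θ (toLex (q, false)), i.1) =
        (Sum.inr (θ (toLex (q', true)), j.1) : κ ⊕ ℚ × ι) := h
      obtain ⟨h1, h2⟩ := Prod.mk.inj (Sum.inr_injective h')
      exact absurd (inj _ _ _ _ h1).2 (by decide)
    · have h' : y.1 = Sum.inr (θ (toLex (q, true)), i.1) := h.symm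
      rcases hX y _ _ h' with h2 | h2
      · exact absurd (hθ' _).1 (not_lt.2 h2)
      · exact absurd (hθ' _).2 (not_lt.2 h2)
    · have h' : Sum.inr (θ (toLex (q, true)), i.1) =
        (Sum.inr (θ (toLex (q', false)), j.1) : κ ⊕ ℚ × ι) := h
      obtain ⟨h1, h2⟩ := Prod.mk.inj (Sum.inr_injective h')
      exact absurd (inj _ _ _ _ h1).2 (by decide)
    · have h' : Sum.inr (θ (toLex (q, true)), i.1) =
        (Sum.inr (θ (toLex (q', true)), j.1) : κ ⊕ ℚ × ι) := h
      obtain ⟨h1, h2⟩ := Prod.mk.inj (Sum.inr_injective h')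
      obtain ⟨rfl, -⟩ := inj _ _ _ _ h1
      rw [Subtype.ext h2]
  obtain ⟨l', hl'⟩ : ∃ l' : List (X ⊕ (P ⊕ R)), l'.map ρ = l := by
    apply exists_list_map
    intro x hx
    by_cases h1 : ∃ i, x = Sum.inr (a, i)
    · obtain ⟨i, rfl⟩ := h1
      exact ⟨Sum.inr (Sum.inl ⟨i, hx⟩), rfl⟩
    · by_cases h2 : ∃ i, x = Sum.inr (b, i)
      · obtain ⟨i, rfl⟩ := h2
        exact ⟨Sum.inr (Sum.inr ⟨i, hx⟩), rfl⟩
      · exact ⟨Sum.inl ⟨x, hx, fun i h => h1 ⟨i, h⟩, fun i h => h2 ⟨i, h⟩⟩, rfl⟩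
  -- facts on the indices of `ψ`
  refine ordCfg_of (fun l => e (l.map ψ)) (hb.comap hψ) ?_ l' ?_
  · intro L f hf
    show e ((L.map (mapIdx f)).map ψ) = e (L.map ψ)
    rw [List.map_map]
    symm
    apply ordInv_congr ho
    · rintro (x | ⟨q, i | i⟩) _ <;> rfl
    · have hu : ∀ (q : ℚ) (i : P ⊕ R), Sum.inr (q, i) ∈ L → q ∈ usedIdx L :=
        fun q i h => ⟨i, h⟩
      have hfl : ∀ (q q' : ℚ) (i i' : P ⊕ R), Sum.inr (q, i) ∈ L → Sum.inr (q', i') ∈ L →
          q < q' → f q < f q' := fun q q' i i' h h' hq => hf (hu _ _ h) (hu _ _ h') hq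
      -- value of `ψ` on indices: a relation
      have hval : ∀ (q : ℚ) (i : P ⊕ R), ∃ (s : Bool) (t : ι), ∀ q', ψ (Sum.inr (q', i)) =
          Sum.inr (θ (toLex (q', s)), t) := by
        rintro q (i | i)
        · exact ⟨false, i.1, fun q' => rfl⟩
        · exact ⟨true, i.1, fun q' => rfl⟩
      rintro (x | ⟨q, i⟩) hx (y | ⟨q', i'⟩) hy u v u' v' i1 j1 i1' j1' h1 h2 h3 h4
      · have e1 : (Sum.inr (u, i1) : κ ⊕ ℚ × ι) = Sum.inr (u', i1') := h1.symm.trans h3
        have e2 : (Sum.inr (v, j1) : κ ⊕ ℚ × ι) = Sum.inr (v', j1') := h2.symm.trans h4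
        obtain ⟨rfl, -⟩ := Prod.mk.inj (Sum.inr_injective e1)
        obtain ⟨rfl, -⟩ := Prod.mk.inj (Sum.inr_injective e2)
        exact ⟨id, id⟩
      · have e1 : (Sum.inr (u, i1) : κ ⊕ ℚ × ι) = Sum.inr (u', i1') := h1.symm.trans h3
        obtain ⟨rfl, -⟩ := Prod.mk.inj (Sum.inr_injective e1)
        obtain ⟨s, t, hst⟩ := hval q' i'
        have h2' : Sum.inr (θ (toLex (q', s)), t) = (Sum.inr (v, j1) : κ ⊕ ℚ × ι) :=
          (hst q').symm.trans h2
        have h4' : Sum.inr (θ (toLex (f q', s)), t) = (Sum.inr (v', j1') : κ ⊕ ℚ × ι) :=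
          (hst (f q')).symm.trans h4
        obtain ⟨rfl, -⟩ := Prod.mk.inj (Sum.inr_injective h2')
        obtain ⟨rfl, -⟩ := Prod.mk.inj (Sum.inr_injective h4')
        have hi1 := hθ' (toLex (q', s))
        have hi2 := hθ' (toLex (f q', s))
        rcases hX x _ _ h1 with h5 | h5
        · exact ⟨fun _ => by linarith, fun h => by linarith⟩
        · exact ⟨fun h => by linarith, fun h => by linarith⟩
      · have e1 : (Sum.inr (v, j1) : κ ⊕ ℚ × ι) = Sum.inr (v', j1') := h2.symm.trans h4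
        obtain ⟨rfl, -⟩ := Prod.mk.inj (Sum.inr_injective e1)
        obtain ⟨s, t, hst⟩ := hval q i
        have h2' : Sum.inr (θ (toLex (q, s)), t) = (Sum.inr (u, i1) : κ ⊕ ℚ × ι) :=
          (hst q).symm.trans h1
        have h4' : Sum.inr (θ (toLex (f q, s)), t) = (Sum.inr (u', i1') : κ ⊕ ℚ × ι) :=
          (hst (f q)).symm.trans h3
        obtain ⟨rfl, -⟩ := Prod.mk.inj (Sum.inr_injective h2')
        obtain ⟨rfl, -⟩ := Prod.mk.inj (Sum.inr_injective h4')
        have hi1 := hθ' (toLex (q, s))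
        have hi2 := hθ' (toLex (f q, s))
        rcases hX y _ _ h2 with h5 | h5
        · exact ⟨fun _ => by linarith, fun h => by linarith⟩
        · exact ⟨fun h => by linarith, fun h => by linarith⟩
      · obtain ⟨s, t, hst⟩ := hval q i
        obtain ⟨s', t', hst'⟩ := hval q' i'
        have h1' : Sum.inr (θ (toLex (q, s)), t) = (Sum.inr (u, i1) : κ ⊕ ℚ × ι) :=
          (hst q).symm.trans h1
        have h3' : Sum.inr (θ (toLex (f q, s)), t) = (Sum.inr (u', i1') : κ ⊕ ℚ × ι) :=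
          (hst (f q)).symm.trans h3
        have h2' : Sum.inr (θ (toLex (q', s')), t') = (Sum.inr (v, j1) : κ ⊕ ℚ × ι) :=
          (hst' q').symm.trans h2
        have h4' : Sum.inr (θ (toLex (f q', s')), t') = (Sum.inr (v', j1') : κ ⊕ ℚ × ι) :=
          (hst' (f q')).symm.trans h4
        obtain ⟨rfl, -⟩ := Prod.mk.inj (Sum.inr_injective h1')
        obtain ⟨rfl, -⟩ := Prod.mk.inj (Sum.inr_injective h2')
        obtain ⟨rfl, -⟩ := Prod.mk.inj (Sum.inr_injective h3')
        obtain ⟨rfl, -⟩ := Prod.mk.inj (Sum.inr_injective h4')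
        constructor
        · intro hlt
          rcases lt_trichotomy q q' with h5 | h5 | h5
          · exact lt1 _ _ _ _ (hfl _ _ _ _ hx hy h5)
          · subst h5
            rw [hθ.lt_iff_lt, Prod.Lex.toLex_lt_toLex] at hlt ⊢
            rcases hlt with hlt | hlt
            · exact absurd hlt (lt_irrefl _)
            · exact Or.inr ⟨rfl, hlt.2⟩
          · exact absurd (hlt.trans (lt1 _ _ _ _ h5)) (lt_irrefl _)
        · intro heq
          obtain ⟨rfl, rfl⟩ := inj _ _ _ _ heq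
          rfl
  · -- the two values
    have e1 : e ((l'.map (place 0 1)).map ψ) = e l := by
      rw [List.map_map, ← hl']
      apply ordInv_congr ho
      · rintro (x | i | i) _ <;> rfl
      · have hv : ∀ z : X ⊕ (P ⊕ R), (∃ x, z = Sum.inl x) ∨
            (∃ t, (ψ ∘ place 0 1) z = Sum.inr (θ (toLex (0, false)), t) ∧ ρ z = Sum.inr (a, t)) ∨
            (∃ t, (ψ ∘ place 0 1) z = Sum.inr (θ (toLex (1, true)), t) ∧
              ρ z = Sum.inr (b, t)) := by
          rintro (x | i | i)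
          · exact Or.inl ⟨x, rfl⟩
          · exact Or.inr (Or.inl ⟨i.1, rfl, rfl⟩)
          · exact Or.inr (Or.inr ⟨i.1, rfl, rfl⟩)
        have hlt := lt1 0 1 false true (by norm_num)
        have b1 := hθ' (toLex (0, false))
        have b2 := hθ' (toLex (1, true))
        intro x _ y _ u v u' v' i1 j1 i1' j1' h1 h2 h3 h4
        have hx : (u = u' ∧ (u ≤ a' ∨ b' ≤ u)) ∨ (u = θ (toLex (0, false)) ∧ u' = a) ∨
            (u = θ (toLex (1, true)) ∧ u' = b) := by
          rcases hv x with ⟨z, rfl⟩ | ⟨t, g1, g2⟩ | ⟨t, g1, g2⟩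
          · have e1 : (Sum.inr (u, i1) : κ ⊕ ℚ × ι) = Sum.inr (u', i1') := h1.symm.trans h3
            obtain ⟨rfl, -⟩ := Prod.mk.inj (Sum.inr_injective e1)
            exact Or.inl ⟨rfl, hX z _ _ h1⟩
          · rw [g1] at h1; rw [g2] at h3
            exact Or.inr (Or.inl ⟨(Prod.mk.inj (Sum.inr_injective h1)).1.symm,
              (Prod.mk.inj (Sum.inr_injective h3)).1.symm⟩)
          · rw [g1] at h1; rw [g2] at h3
            exact Or.inr (Or.inr ⟨(Prod.mk.inj (Sum.inr_injective h1)).1.symm,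
              (Prod.mk.inj (Sum.inr_injective h3)).1.symm⟩)
        have hy : (v = v' ∧ (v ≤ a' ∨ b' ≤ v)) ∨ (v = θ (toLex (0, false)) ∧ v' = a) ∨
            (v = θ (toLex (1, true)) ∧ v' = b) := by
          rcases hv y with ⟨z, rfl⟩ | ⟨t, g1, g2⟩ | ⟨t, g1, g2⟩
          · have e1 : (Sum.inr (v, j1) : κ ⊕ ℚ × ι) = Sum.inr (v', j1') := h2.symm.trans h4
            obtain ⟨rfl, -⟩ := Prod.mk.inj (Sum.inr_injective e1)
            exact Or.inl ⟨rfl, hX z _ _ h2⟩
          · rw [g1] at h2; rw [g2] at h4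
            exact Or.inr (Or.inl ⟨(Prod.mk.inj (Sum.inr_injective h2)).1.symm,
              (Prod.mk.inj (Sum.inr_injective h4)).1.symm⟩)
          · rw [g1] at h2; rw [g2] at h4
            exact Or.inr (Or.inr ⟨(Prod.mk.inj (Sum.inr_injective h2)).1.symm,
              (Prod.mk.inj (Sum.inr_injective h4)).1.symm⟩)
        rcases hx with ⟨rfl, hx⟩ | ⟨rfl, rfl⟩ | ⟨rfl, rfl⟩ <;>
          rcases hy with ⟨rfl, hy⟩ | ⟨rfl, rfl⟩ | ⟨rfl, rfl⟩ <;>
          first
            | exact ⟨id, id⟩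
            | (rcases hx with hx | hx <;> exact ⟨fun h => by linarith, fun h => by linarith⟩)
            | (rcases hy with hy | hy <;> exact ⟨fun h => by linarith, fun h => by linarith⟩)
            | exact ⟨fun h => by linarith, fun h => by linarith⟩
    have e2 : e ((l'.map (place 1 0)).map ψ) = e (l.map (mapIdx (Equiv.swap a b))) := by
      rw [List.map_map, ← hl', List.map_map]
      apply ordInv_congr ho
      · rintro (x | i | i) _
        · show Sum.map id Prod.snd x.1 = Sum.map id Prod.snd (mapIdx _ x.1)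
          rcases x.1 with y | ⟨j, t⟩ <;> rfl
        · rfl
        · rfl
      · have hv : ∀ z : X ⊕ (P ⊕ R), (∃ x : X, z = Sum.inl x ∧
              (mapIdx (Equiv.swap a b) ∘ ρ) z = x.1) ∨
            (∃ t, (ψ ∘ place 1 0) z = Sum.inr (θ (toLex (1, false)), t) ∧
              (mapIdx (Equiv.swap a b) ∘ ρ) z = Sum.inr (b, t)) ∨
            (∃ t, (ψ ∘ place 1 0) z = Sum.inr (θ (toLex (0, true)), t) ∧
              (mapIdx (Equiv.swap a b) ∘ ρ) z = Sum.inr (a, t)) := by
          rintro (x | i | i)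
          · refine Or.inl ⟨x, rfl, ?_⟩
            show mapIdx (Equiv.swap a b) x.1 = x.1
            rcases hx : x.1 with y | ⟨j, t⟩
            · rfl
            · have hja : j ≠ a := by rintro rfl; exact x.2.2.1 t hx
              have hjb : j ≠ b := by rintro rfl; exact x.2.2.2 t hx
              simp only [mapIdx, Sum.map_inr, Prod.map, id]
              rw [Equiv.swap_apply_of_ne_of_ne hja hjb]
          · refine Or.inr (Or.inl ⟨i.1, rfl, ?_⟩)
            show (Sum.inr (Equiv.swap a b a, i.1) : κ ⊕ ℚ × ι) = _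
            rw [Equiv.swap_apply_left]
          · refine Or.inr (Or.inr ⟨i.1, rfl, ?_⟩)
            show (Sum.inr (Equiv.swap a b b, i.1) : κ ⊕ ℚ × ι) = _
            rw [Equiv.swap_apply_right]
        have hlt := lt1 0 1 true false (by norm_num)
        have b1 := hθ' (toLex (1, false))
        have b2 := hθ' (toLex (0, true))
        intro x _ y _ u v u' v' i1 j1 i1' j1' h1 h2 h3 h4
        have hx : (u = u' ∧ (u ≤ a' ∨ b' ≤ u)) ∨ (u = θ (toLex (1, false)) ∧ u' = b) ∨
            (u = θ (toLex (0, true)) ∧ u' = a) := by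
          rcases hv x with ⟨z, rfl, hz⟩ | ⟨t, g1, g2⟩ | ⟨t, g1, g2⟩
          · have e1 : (Sum.inr (u, i1) : κ ⊕ ℚ × ι) = Sum.inr (u', i1') :=
              h1.symm.trans (hz.symm.trans h3)
            obtain ⟨rfl, -⟩ := Prod.mk.inj (Sum.inr_injective e1)
            exact Or.inl ⟨rfl, hX z _ _ h1⟩
          · rw [g1] at h1; rw [g2] at h3
            exact Or.inr (Or.inl ⟨(Prod.mk.inj (Sum.inr_injective h1)).1.symm,
              (Prod.mk.inj (Sum.inr_injective h3)).1.symm⟩)
          · rw [g1] at h1; rw [g2] at h3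
            exact Or.inr (Or.inr ⟨(Prod.mk.inj (Sum.inr_injective h1)).1.symm,
              (Prod.mk.inj (Sum.inr_injective h3)).1.symm⟩)
        have hy : (v = v' ∧ (v ≤ a' ∨ b' ≤ v)) ∨ (v = θ (toLex (1, false)) ∧ v' = b) ∨
            (v = θ (toLex (0, true)) ∧ v' = a) := by
          rcases hv y with ⟨z, rfl, hz⟩ | ⟨t, g1, g2⟩ | ⟨t, g1, g2⟩
          · have e1 : (Sum.inr (v, j1) : κ ⊕ ℚ × ι) = Sum.inr (v', j1') :=
              h2.symm.trans (hz.symm.trans h4)
            obtain ⟨rfl, -⟩ := Prod.mk.inj (Sum.inr_injective e1)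
            exact Or.inl ⟨rfl, hX z _ _ h2⟩
          · rw [g1] at h2; rw [g2] at h4
            exact Or.inr (Or.inl ⟨(Prod.mk.inj (Sum.inr_injective h2)).1.symm,
              (Prod.mk.inj (Sum.inr_injective h4)).1.symm⟩)
          · rw [g1] at h2; rw [g2] at h4
            exact Or.inr (Or.inr ⟨(Prod.mk.inj (Sum.inr_injective h2)).1.symm,
              (Prod.mk.inj (Sum.inr_injective h4)).1.symm⟩)
        rcases hx with ⟨rfl, hx⟩ | ⟨rfl, rfl⟩ | ⟨rfl, rfl⟩ <;>
          rcases hy with ⟨rfl, hy⟩ | ⟨rfl, rfl⟩ | ⟨rfl, rfl⟩ <;>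
          first
            | exact ⟨id, id⟩
            | (rcases hx with hx | hx <;> exact ⟨fun h => by linarith, fun h => by linarith⟩)
            | (rcases hy with hy | hy <;> exact ⟨fun h => by linarith, fun h => by linarith⟩)
            | exact ⟨fun h => by linarith, fun h => by linarith⟩
    show e ((l'.map (place 0 1)).map ψ) ≠ e ((l'.map (place 1 0)).map ψ)
    rw [e1, e2]
    exact fun h => hne h.symm

end Pool.Agent.H18.UV

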