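import Pool.Agent.H18.UV.Cell

/-!
Module U1 of MP_5607ba_lc: minimal order configurations in which `P` is never ordered with itself
give `Many`.
-/

set_option autoImplicit false

open Set Filter

namespace Pool.Agent.H18.UV

open Pool.Agent.H72.UV

section u1

variable {k p s : ℕ}

/-- the substructure with cells given by `n` -/
def BS (θ : ℚ ×ₗ WithTop ℕ → ℚ) (n : ℚ → ℕ) : Set (Fin k ⊕ ℚ × (Fin p ⊕ Fin s)) :=
  {x | (∃ y, x = Sum.inl y) ∨
    (∃ (q : ℚ) (i : ℕ) (j : Fin p), i < n q ∧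
      x = Sum.inr (θ (toLex (q, (i : WithTop ℕ))), Sum.inl j)) ∨
    ∃ (q : ℚ) (j : Fin s), x = Sum.inr (θ (toLex (q, (⊤ : WithTop ℕ))), Sum.inr j)}

variable {θ : ℚ ×ₗ WithTop ℕ → ℚ}

lemma BS_inl (n : ℚ → ℕ) (y : Fin k) :
    (Sum.inl y : Fin k ⊕ ℚ × (Fin p ⊕ Fin s)) ∈ BS θ n := Or.inl ⟨y, rfl⟩

lemma BS_P {n : ℚ → ℕ} {q : ℚ} {i : ℕ} (h : i < n q) (j : Fin p) :
    (Sum.inr (θ (toLex (q, (i : WithTop ℕ))), Sum.inl j) : Fin k ⊕ ℚ × (Fin p ⊕ Fin s)) ∈
      BS θ n := Or.inr (Or.inl ⟨q, i, j, h, rfl⟩)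

lemma BS_R (n : ℚ → ℕ) (q : ℚ) (j : Fin s) :
    (Sum.inr (θ (toLex (q, (⊤ : WithTop ℕ))), Sum.inr j) : Fin k ⊕ ℚ × (Fin p ⊕ Fin s)) ∈
      BS θ n := Or.inr (Or.inr ⟨q, j, rfl⟩)

lemma BS_idx {n : ℚ → ℕ} (d : ℚ) (i : Fin p ⊕ Fin s)
    (h : (Sum.inr (d, i) : Fin k ⊕ ℚ × (Fin p ⊕ Fin s)) ∈ BS θ n) :
    ∃ q w, d = θ (toLex (q, w)) := by
  rcases h with ⟨y, hy⟩ | ⟨q, i', j, _, h⟩ | ⟨q, j, h⟩
  · exact absurd hy (by simp)
  · exact ⟨q, _, (Prod.mk.inj (Sum.inr_injective h)).1⟩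
  · exact ⟨q, _, (Prod.mk.inj (Sum.inr_injective h)).1⟩

/-- the cell `q` -/
def cellS (θ : ℚ ×ₗ WithTop ℕ → ℚ) (n : ℚ → ℕ) (q : ℚ) :
    Set (BS (k := k) (p := p) (s := s) θ n) :=
  {z | ∃ w i, z.1 = Sum.inr (θ (toLex (q, w)), i)}

lemma th_inj (hθ : StrictMono θ) {q q' : ℚ} {u v : WithTop ℕ}
    (h : θ (toLex (q, u)) = θ (toLex (q', v))) : q = q' ∧ u = v := by
  have h2 : ((q, u) : ℚ × WithTop ℕ) = (q', v) := toLex.injective (hθ.injective h)
  exact Prod.mk.inj h2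

lemma cellS_sub (hθ : StrictMono θ) (n : ℚ → ℕ) (q : ℚ) :
    (cellS θ n q : Set (BS (k := k) (p := p) (s := s) θ n)) ⊆
      range (Sum.elim
        (fun x : Fin (n q) × Fin p => (⟨_, BS_P x.1.2 x.2⟩ : BS (k := k) (p := p) (s := s) θ n))
        (fun j : Fin s => (⟨_, BS_R n q j⟩ : BS (k := k) (p := p) (s := s) θ n))) := by
  rintro ⟨z, hz⟩ ⟨w, i, h⟩
  have h' : z = Sum.inr (θ (toLex (q, w)), i) := h
  rcases hz with ⟨y, hy⟩ | ⟨q', i', j, hi', hx⟩ | ⟨q', j, hx⟩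
  · rw [hy] at h'
    exact absurd h' (by simp)
  · rw [hx] at h'
    obtain ⟨h1, h2⟩ := Prod.mk.inj (Sum.inr_injective h')
    obtain ⟨rfl, -⟩ := th_inj hθ h1
    exact ⟨Sum.inl (⟨i', hi'⟩, j), Subtype.ext hx.symm⟩
  · rw [hx] at h'
    obtain ⟨h1, h2⟩ := Prod.mk.inj (Sum.inr_injective h')
    obtain ⟨rfl, -⟩ := th_inj hθ h1
    exact ⟨Sum.inr j, Subtype.ext hx.symm⟩

lemma cellS_finite (hθ : StrictMono θ) (n : ℚ → ℕ) (q : ℚ) :
    (cellS θ n q : Set (BS (k := k) (p := p) (s := s) θ n)).Finite :=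
  (finite_range _).subset (cellS_sub hθ n q)

lemma cellS_ncard (hθ : StrictMono θ) (n : ℚ → ℕ) (q : ℚ) :
    (cellS θ n q : Set (BS (k := k) (p := p) (s := s) θ n)).ncard ≤ n q * p + s := by
  refine (Set.ncard_le_ncard (cellS_sub hθ n q) (toFinite _)).trans ?_
  rw [← image_univ]
  refine (ncard_image_le (toFinite _)).trans ?_
  rw [ncard_univ, Nat.card_sum, Nat.card_prod]
  simp

variable {M C : Type} {c : Str M C} {e : Str (Fin k ⊕ ℚ × (Fin p ⊕ Fin s)) C}

/-- adjacent transpositions of the `P`-indices -/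
lemma adj_orb (hθ : StrictMono θ)
    (hP : ∀ (l : List (Fin k ⊕ ℚ × (Fin p ⊕ Fin s))) (a b : ℚ), Adj l a b →
      (∀ i, Sum.inr (a, i) ∈ l → ∃ j, i = Sum.inl j) →
      (∀ i, Sum.inr (b, i) ∈ l → ∃ j, i = Sum.inl j) →
      e (l.map (mapIdx (Equiv.swap a b))) = e l) (n : ℚ → ℕ) (q : ℚ) (i : ℕ) (hi : i + 1 < n q)
    (j : Fin p) :
    (⟨_, BS_P hi j⟩ : BS (k := k) (p := p) (s := s) θ n) ∈
      orbK e (BS θ n) ⟨_, BS_P (Nat.lt_of_succ_lt hi) j⟩ := by
  classical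
  set a := θ (toLex (q, (i : WithTop ℕ))) with ha
  set b := θ (toLex (q, ((i + 1 : ℕ) : WithTop ℕ))) with hb
  have hab : a < b := hθ (Prod.Lex.toLex_lt_toLex.2 (Or.inr ⟨rfl, by
    show (i : WithTop ℕ) < ((i + 1 : ℕ) : WithTop ℕ)
    exact_mod_cast Nat.lt_succ_self i⟩))
  let F : Equiv.Perm (Fin k ⊕ ℚ × (Fin p ⊕ Fin s)) :=
    Equiv.sumCongr (Equiv.refl _) (Equiv.prodCongr (Equiv.swap a b) (Equiv.refl _))
  have hF : ∀ x, F x = mapIdx (Equiv.swap a b) x := by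
    rintro (y | ⟨d, t⟩) <;> rfl
  have hFF : ∀ x, F (F x) = x := by
    rintro (y | ⟨d, t⟩)
    · rfl
    · show Sum.inr (Equiv.swap a b (Equiv.swap a b d), t) = _
      rw [Equiv.swap_apply_self]
  have hmem1 : ∀ x ∈ BS θ n, F x ∈ BS θ n := by
    rintro x (⟨y, rfl⟩ | ⟨q', i', j', hi', rfl⟩ | ⟨q', j', rfl⟩)
    · exact BS_inl n y
    · show Sum.inr (Equiv.swap a b (θ (toLex (q', (i' : WithTop ℕ)))), Sum.inl j') ∈ BS θ n
      by_cases h1 : θ (toLex (q', (i' : WithTop ℕ))) = a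
      · rw [h1, Equiv.swap_apply_left]
        exact BS_P hi j'
      · by_cases h2 : θ (toLex (q', (i' : WithTop ℕ))) = b
        · rw [h2, Equiv.swap_apply_right]
          exact BS_P (Nat.lt_of_succ_lt hi) j'
        · rw [Equiv.swap_apply_of_ne_of_ne h1 h2]
          exact BS_P hi' j'
    · show Sum.inr (Equiv.swap a b (θ (toLex (q', (⊤ : WithTop ℕ)))), Sum.inr j') ∈ BS θ n
      have h1 : θ (toLex (q', (⊤ : WithTop ℕ))) ≠ a := fun h =>
        absurd (th_inj hθ h).2 (by simp)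
      have h2 : θ (toLex (q', (⊤ : WithTop ℕ))) ≠ b := fun h =>
        absurd (th_inj hθ h).2.symm (WithTop.coe_ne_top)
      rw [Equiv.swap_apply_of_ne_of_ne h1 h2]
      exact BS_R n q' j'
  have hmem : ∀ x, F x ∈ BS θ n ↔ x ∈ BS θ n := fun x =>
    ⟨fun h => by have := hmem1 _ h; rwa [hFF] at this, hmem1 x⟩
  let g : Equiv.Perm (BS (k := k) (p := p) (s := s) θ n) := F.subtypePerm hmem
  have hgval : ∀ z, (g z).1 = mapIdx (Equiv.swap a b) z.1 := fun z => hF z.1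
  have hPtype : ∀ (z : BS (k := k) (p := p) (s := s) θ n) (i' : ℕ) (t : Fin p ⊕ Fin s),
      z.1 = Sum.inr (θ (toLex (q, (i' : WithTop ℕ))), t) → ∃ j, t = Sum.inl j := by
    rintro ⟨z, hz⟩ i' t h
    have h' : z = Sum.inr (θ (toLex (q, (i' : WithTop ℕ))), t) := h
    rcases hz with ⟨y, hy⟩ | ⟨q', i'', j', _, hx⟩ | ⟨q', j', hx⟩
    · rw [hy] at h'
      exact absurd h' (by simp)
    · rw [hx] at h'
      exact ⟨j', (Prod.mk.inj (Sum.inr_injective h')).2.symm⟩
    · rw [hx] at h'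
      exact absurd (th_inj hθ (Prod.mk.inj (Sum.inr_injective h')).1).2.symm WithTop.coe_ne_top
  refine ⟨g, ⟨?_, ?_, ?_⟩, ?_⟩
  · intro L
    have h1 : (L.map fun z => (g z).1) = (L.map Subtype.val).map (mapIdx (Equiv.swap a b)) := by
      rw [List.map_map]
      exact List.map_congr_left fun z _ => hgval z
    rw [h1]
    apply hP
    · refine ⟨hab, ?_⟩
      rintro d ⟨t, ht⟩
      obtain ⟨z, _, hz'⟩ := List.mem_map.1 ht
      have hzm := z.2
      rw [hz'] at hzm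
      obtain ⟨q', w, rfl⟩ := BS_idx d t hzm
      rcases lt_or_ge (toLex (q, (i : WithTop ℕ))) (toLex (q', w)) with h | h
      · right
        apply hθ.monotone
        rw [Prod.Lex.toLex_lt_toLex] at h
        rw [Prod.Lex.toLex_le_toLex]
        rcases h with h | ⟨h, h'⟩
        · exact Or.inl h
        · refine Or.inr ⟨h, ?_⟩
          have h2 : (i : WithTop ℕ) < w := h'
          show ((i + 1 : ℕ) : WithTop ℕ) ≤ w
          rcases w with _ | w
          · exact le_top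
          · have h3 : (i : WithTop ℕ) < (w : WithTop ℕ) := h2
            have h4 : i < w := by exact_mod_cast h3
            have h5 : i + 1 ≤ w := h4
            have h6 : ((i + 1 : ℕ) : WithTop ℕ) ≤ (w : WithTop ℕ) := by exact_mod_cast h5
            exact h6
      · left
        exact hθ.monotone h
    · intro t ht
      obtain ⟨z, _, hz'⟩ := List.mem_map.1 ht
      exact hPtype z _ t hz'
    · intro t ht
      obtain ⟨z, _, hz'⟩ := List.mem_map.1 ht
      exact hPtype z _ t hz'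
  · rintro z ⟨y, hy⟩
    apply Subtype.ext
    rw [hgval, hy]
    rfl
  · have h1 : (range (fun t : Fin p ⊕ Fin s => (Sum.inr (a, t) : Fin k ⊕ ℚ × (Fin p ⊕ Fin s))) ∪
        range (fun t : Fin p ⊕ Fin s => Sum.inr (b, t))).Finite :=
      (finite_range _).union (finite_range _)
    refine (h1.preimage (f := (Subtype.val : BS (k := k) (p := p) (s := s) θ n → _))
      Subtype.val_injective.injOn).subset ?_
    intro z hz
    by_contra hcon
    apply hz
    apply Subtype.ext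
    rw [hgval]
    rcases hz2 : z.1 with y | ⟨d, t⟩
    · rfl
    · show Sum.inr (Equiv.swap a b d, t) = _
      rw [Equiv.swap_apply_of_ne_of_ne]
      · rintro rfl
        exact hcon (Or.inl ⟨t, hz2.symm⟩)
      · rintro rfl
        exact hcon (Or.inr ⟨t, hz2.symm⟩)
  · apply Subtype.ext
    rw [hgval]
    show Sum.inr (Equiv.swap a b a, Sum.inl j) = _
    rw [Equiv.swap_apply_left]

lemma all_orb (hθ : StrictMono θ)
    (hP : ∀ (l : List (Fin k ⊕ ℚ × (Fin p ⊕ Fin s))) (a b : ℚ), Adj l a b →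
      (∀ i, Sum.inr (a, i) ∈ l → ∃ j, i = Sum.inl j) →
      (∀ i, Sum.inr (b, i) ∈ l → ∃ j, i = Sum.inl j) →
      e (l.map (mapIdx (Equiv.swap a b))) = e l) (n : ℚ → ℕ) (q : ℚ) (j : Fin p)
    (h0 : 0 < n q) (i : ℕ) : ∀ hi : i < n q,
    (⟨_, BS_P hi j⟩ : BS (k := k) (p := p) (s := s) θ n) ∈ orbK e (BS θ n) ⟨_, BS_P h0 j⟩ := by
  induction i with
  | zero => intro _; exact orbK_refl _
  | succ i ih =>
    intro hi
    exact orbK_trans (ih (Nat.lt_of_succ_lt hi)) (adj_orb hθ hP n q i hi j)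

/-- the sizes of the orbits -/
lemma orb_lower (hθ : StrictMono θ)
    (hP : ∀ (l : List (Fin k ⊕ ℚ × (Fin p ⊕ Fin s))) (a b : ℚ), Adj l a b →
      (∀ i, Sum.inr (a, i) ∈ l → ∃ j, i = Sum.inl j) →
      (∀ i, Sum.inr (b, i) ∈ l → ∃ j, i = Sum.inl j) →
      e (l.map (mapIdx (Equiv.swap a b))) = e l) (n : ℚ → ℕ) (q : ℚ) (j : Fin p)
    (i : ℕ) (hi : i < n q) (hfin : (orbK e (BS θ n)
      (⟨_, BS_P hi j⟩ : BS (k := k) (p := p) (s := s) θ n)).Finite) :
    n q ≤ (orbK e (BS θ n) (⟨_, BS_P hi j⟩ : BS (k := k) (p := p) (s := s) θ n)).ncard := by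
  have h0 : 0 < n q := by omega
  let f : Fin (n q) → BS (k := k) (p := p) (s := s) θ n := fun i => ⟨_, BS_P i.2 j⟩
  have hf : Function.Injective f := by
    intro i1 i2 h
    have h1 := congrArg Subtype.val h
    have h2 := (th_inj hθ (Prod.mk.inj (Sum.inr_injective h1)).1).2
    have h3 : (i1 : ℕ) = i2 := by exact_mod_cast h2
    exact Fin.ext h3
  have h1 : range f ⊆ orbK e (BS θ n) (⟨_, BS_P hi j⟩ : BS (k := k) (p := p) (s := s) θ n) := by
    rintro _ ⟨i', rfl⟩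
    exact orbK_trans (orbK_symm (all_orb hθ hP n q j h0 i hi)) (all_orb hθ hP n q j h0 i' i'.2)
  have h2 := Set.ncard_le_ncard h1 hfin
  rw [← image_univ, ncard_image_of_injective _ hf, ncard_univ] at h2
  simpa using h2

end u1

/-- the sizes of the cells -/
def NN (p s : ℕ) : ℕ → ℕ
  | 0 => s + 2
  | i + 1 => (p + 1) * NN p s i + s + 1

lemma NN_lt (p s i : ℕ) : NN p s i < NN p s (i + 1) := by
  have : NN p s (i + 1) = (p + 1) * NN p s i + s + 1 := rfl
  rw [this]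
  nlinarith [Nat.zero_le (p * NN p s i)]

lemma NN_mono (p s : ℕ) : StrictMono (NN p s) := strictMono_nat_of_lt_succ (NN_lt p s)

lemma NN_ge (p s i : ℕ) : s + 2 ≤ NN p s i := (NN_mono p s).monotone (Nat.zero_le i)

lemma NN_disj_aux {p s i i' m : ℕ} (h2 : m ≤ NN p s i * p + s)
    (h3 : NN p s i' ≤ m) : i' ≤ i := by
  by_contra hcon
  have h5 : NN p s (i + 1) ≤ NN p s i' := (NN_mono p s).monotone (by omega)
  have h6 : NN p s (i + 1) = (p + 1) * NN p s i + s + 1 := rfl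
  rw [h6] at h5
  nlinarith [Nat.zero_le (NN p s i)]

lemma NN_disj {p s i i' m : ℕ} (h1 : NN p s i ≤ m) (h2 : m ≤ NN p s i * p + s)
    (h3 : NN p s i' ≤ m) (h4 : m ≤ NN p s i' * p + s) : i = i' :=
  le_antisymm (NN_disj_aux h4 h1) (NN_disj_aux h2 h3)

/-- the coding -/
def code (x : ℕ → Bool) (q : ℚ) : ℕ :=
  2 * Denumerable.eqv ℚ q + (if x (Denumerable.eqv ℚ q) then 1 else 0)

lemma code_eq {x y : ℕ → Bool} {q q' : ℚ} (h : code x q = code y q') :
    q = q' ∧ x (Denumerable.eqv ℚ q) = y (Denumerable.eqv ℚ q) := by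
  unfold code at h
  have h1 : Denumerable.eqv ℚ q = Denumerable.eqv ℚ q' := by
    split_ifs at h <;> omega
  refine ⟨(Denumerable.eqv ℚ).injective h1, ?_⟩
  rw [← h1] at h
  by_cases hx : x (Denumerable.eqv ℚ q) = true <;> by_cases hy : y (Denumerable.eqv ℚ q) = true <;>
    simp [hx, hy] at h ⊢

lemma code_inj {x y : ℕ → Bool} (h : ∀ q, ∃ q', code x q = code y q') : x = y := by
  funext n
  obtain ⟨q', hq'⟩ := h ((Denumerable.eqv ℚ).symm n)
  have := (code_eq hq').2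
  simpa using this

lemma measurableSet_code (q : ℚ) (P : ℕ → Prop) : MeasurableSet {x : ℕ → Bool | P (code x q)} := by
  have h1 : {x : ℕ → Bool | P (code x q)} = (fun x : ℕ → Bool => x (Denumerable.eqv ℚ q)) ⁻¹'
      {b | P (2 * Denumerable.eqv ℚ q + (if b then 1 else 0))} := rfl
  rw [h1]
  exact measurable_pi_apply _ (MeasurableSet.of_discrete)

theorem u1 (hS : T_SWAP) : T_U1 := by
  classical
  intro M C c μ hμ k p s e hps hb ho ⟨l, hl⟩ hP
  -- `p` and `s` are positive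
  have hp0 : 0 < p := by
    by_contra hp
    obtain rfl : p = 0 := by omega
    apply hl
    apply ordInv_congr ho
    · rintro (x | x | x) _ <;> rfl
    · have key : ∀ (x : Fin k ⊕ (Fin 0 ⊕ Fin s)) (u u' : ℚ) (i i' : Fin 0 ⊕ Fin s),
          (place (0 : ℚ) 1 x) = Sum.inr (u, i) → (place (1 : ℚ) 0 x) = Sum.inr (u', i') →
          u = 1 ∧ u' = 0 := by
        rintro (x | x | x) u u' i i' h1 h2
        · exact absurd h1 (by simp [place])
        · exact x.elim0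
        · exact ⟨(Prod.mk.inj (Sum.inr_injective h1)).1.symm,
            (Prod.mk.inj (Sum.inr_injective h2)).1.symm⟩
      intro x _ y _ u v u' v' i1 j1 i1' j1' h1 h2 h3 h4
      obtain ⟨rfl, rfl⟩ := key x _ _ _ _ h1 h3
      obtain ⟨rfl, rfl⟩ := key y _ _ _ _ h2 h4
      exact ⟨fun h => absurd h (lt_irrefl _), fun _ => rfl⟩
  have hs0 : 0 < s := by
    by_contra hp
    obtain rfl : s = 0 := by omega
    apply hl
    apply ordInv_congr ho
    · rintro (x | x | x) _ <;> rfl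
    · have key : ∀ (x : Fin k ⊕ (Fin p ⊕ Fin 0)) (u u' : ℚ) (i i' : Fin p ⊕ Fin 0),
          (place (0 : ℚ) 1 x) = Sum.inr (u, i) → (place (1 : ℚ) 0 x) = Sum.inr (u', i') →
          u = 0 ∧ u' = 1 := by
        rintro (x | x | x) u u' i i' h1 h2
        · exact absurd h1 (by simp [place])
        · exact ⟨(Prod.mk.inj (Sum.inr_injective h1)).1.symm,
            (Prod.mk.inj (Sum.inr_injective h2)).1.symm⟩
        · exact x.elim0
      intro x _ y _ u v u' v' i1 j1 i1' j1' h1 h2 h3 h4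
      obtain ⟨rfl, rfl⟩ := key x _ _ _ _ h1 h3
      obtain ⟨rfl, rfl⟩ := key y _ _ _ _ h2 h4
      exact ⟨fun h => absurd h (lt_irrefl _), fun _ => rfl⟩
  set α := e (l.map (place 0 1)) with hα
  set β := e (l.map (place 1 0)) with hβ
  -- values of all placements
  have hpl : ∀ a b a' b' : ℚ, ((a < b ∧ a' < b') ∨ (b < a ∧ b' < a')) →
      e (l.map (place a b)) = e (l.map (place a' b')) := by
    intro a b a' b' h
    apply ordInv_congr ho
    · rintro (x | x | x) _ <;> rfl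
    · have key : ∀ (x : Fin k ⊕ (Fin p ⊕ Fin s)) (u u' : ℚ) (i i' : Fin p ⊕ Fin s),
          (place a b x) = Sum.inr (u, i) → (place a' b' x) = Sum.inr (u', i') →
          (u = a ∧ u' = a') ∨ (u = b ∧ u' = b') := by
        rintro (x | x | x) u u' i i' h1 h2
        · exact absurd h1 (by simp [place])
        · exact Or.inl ⟨(Prod.mk.inj (Sum.inr_injective h1)).1.symm,
            (Prod.mk.inj (Sum.inr_injective h2)).1.symm⟩
        · exact Or.inr ⟨(Prod.mk.inj (Sum.inr_injective h1)).1.symm,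
            (Prod.mk.inj (Sum.inr_injective h2)).1.symm⟩
      intro x _ y _ u v u' v' i1 j1 i1' j1' h1 h2 h3 h4
      rcases key x _ _ _ _ h1 h3 with ⟨rfl, rfl⟩ | ⟨rfl, rfl⟩ <;>
        rcases key y _ _ _ _ h2 h4 with ⟨rfl, rfl⟩ | ⟨rfl, rfl⟩ <;>
        rcases h with ⟨h, h'⟩ | ⟨h, h'⟩ <;>
        exact ⟨fun h => by linarith, fun h => by linarith⟩
  have hA : ∀ a b : ℚ, a < b → e (l.map (place a b)) = α := fun a b h =>
    hpl a b 0 1 (Or.inl ⟨h, by norm_num⟩)
  have hB : ∀ a b : ℚ, b < a → e (l.map (place a b)) = β := fun a b h =>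
    hpl a b 1 0 (Or.inr ⟨h, by norm_num⟩)
  have : Countable (ℚ ×ₗ WithTop ℕ) := inferInstanceAs (Countable (ℚ × WithTop ℕ))
  obtain ⟨θ, hθ, -⟩ := exists_emb (ℚ ×ₗ WithTop ℕ) (show (0 : ℚ) < 1 by norm_num)
  have : Nonempty (Fin p) := ⟨⟨0, hp0⟩⟩
  have : Nonempty (Fin s) := ⟨⟨0, hs0⟩⟩
  -- cells are invariant
  have hcell : ∀ (n : ℚ → ℕ) (hn : ∀ q, 0 < n q) (q : ℚ)
      (v w : BS (k := k) (p := p) (s := s) θ n), v ∈ cellS θ n q → w ∈ orbK e (BS θ n) v →
      w ∈ cellS θ n q := by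
    rintro n hn q ⟨v, hv⟩ w ⟨u, t, h⟩ ⟨g, hg, rfl⟩
    have h' : v = Sum.inr (θ (toLex (q, u)), t) := h
    rcases hv with ⟨y, rfl⟩ | ⟨q', i, j, hi, rfl⟩ | ⟨q', j, rfl⟩
    · exact absurd h' (by simp)
    · obtain ⟨rfl, -⟩ := th_inj hθ (Prod.mk.inj (Sum.inr_injective h')).1
      have := cell_fix hS hμ hb ho (by simp [hps]) hθ (BS θ n) BS_idx (BS_inl n) g hg l
        (σ := Fin p) (σ' := Fin s) Sum.inl Sum.inr q' i ⊤ (fun t => BS_P hi t)
        (fun q'' t => BS_R n q'' t) β α (Ne.symm hl)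
        (fun a b hab => by
          rw [← hB b a hab]
          congr 2
          funext x
          rcases x with x | x | x <;> rfl)
        (fun a b hab => by
          rw [← hA b a hab]
          congr 2
          funext x
          rcases x with x | x | x <;> rfl) j
      obtain ⟨w'', i'', h2⟩ := this
      exact ⟨w'', i'', h2⟩
    · obtain ⟨rfl, -⟩ := th_inj hθ (Prod.mk.inj (Sum.inr_injective h')).1
      have hmap : ∀ a b : ℚ, (l.map (Sum.map id Sum.swap)).map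
          (el (fun t : Fin s => (Sum.inr (b, Sum.inr t) : Fin k ⊕ ℚ × (Fin p ⊕ Fin s)))
            fun t : Fin p => Sum.inr (a, Sum.inl t)) = l.map (place a b) := by
        intro a b
        rw [List.map_map]
        congr 1
        funext x
        rcases x with x | x | x <;> rfl
      have := cell_fix hS hμ hb ho (by simp [← hps, add_comm]) hθ (BS θ n) BS_idx (BS_inl n) g hg
        (l.map (Sum.map id Sum.swap))
        (σ := Fin s) (σ' := Fin p) Sum.inr Sum.inl q' ⊤ ((0 : ℕ) : WithTop ℕ)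
        (fun t => BS_R n q' t)
        (fun q'' t => BS_P (hn q'') t) α β hl
        (fun a b hab => by rw [hmap]; exact hA a b hab)
        (fun a b hab => by rw [hmap]; exact hB a b hab) j
      obtain ⟨w'', i'', h2⟩ := this
      exact ⟨w'', i'', h2⟩
  have hfin : ∀ (n : ℚ → ℕ) (hn : ∀ q, 0 < n q) (q : ℚ)
      (v : BS (k := k) (p := p) (s := s) θ n), v ∈ cellS θ n q →
      (orbK e (BS θ n) v).Finite ∧ (orbK e (BS θ n) v).ncard ≤ n q * p + s := by
    intro n hn q v hv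
    have h1 : orbK e (BS θ n) v ⊆ cellS θ n q := fun w hw => hcell n hn q v w hv hw
    exact ⟨(cellS_finite hθ n q).subset h1,
      (Set.ncard_le_ncard h1 (cellS_finite hθ n q)).trans (cellS_ncard hθ n q)⟩
  have hbounds : ∀ (n : ℚ → ℕ) (hn : ∀ q, 0 < n q) (q : ℚ) (i : ℕ) (hi : i < n q) (j : Fin p),
      n q ≤ (orbK e (BS θ n) (⟨_, BS_P hi j⟩ : BS (k := k) (p := p) (s := s) θ n)).ncard ∧
      (orbK e (BS θ n) (⟨_, BS_P hi j⟩ : BS (k := k) (p := p) (s := s) θ n)).ncard ≤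
        n q * p + s := by
    intro n hn q i hi j
    have h1 := hfin n hn q ⟨_, BS_P hi j⟩ ⟨_, _, rfl⟩
    exact ⟨orb_lower hθ hP n q j i hi h1.1, h1.2⟩
  have hall : ∀ (n : ℚ → ℕ) (hn : ∀ q, 0 < n q) (v : BS (k := k) (p := p) (s := s) θ n),
      (orbK e (BS θ n) v).ncard ≤ s + 1 ∨ ∃ q, n q ≤ (orbK e (BS θ n) v).ncard ∧
        (orbK e (BS θ n) v).ncard ≤ n q * p + s := by
    rintro n hn ⟨v, hv⟩
    have hv' := hv
    rcases hv with ⟨y, rfl⟩ | ⟨q, i, j, hi, rfl⟩ | ⟨q, j, rfl⟩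
    · left
      have h1 : orbK e (BS θ n) ⟨Sum.inl y, hv'⟩ ⊆ {⟨Sum.inl y, hv'⟩} := by
        rintro w ⟨g, hg, rfl⟩
        exact hg.fixK _ ⟨y, rfl⟩
      have h2 := Set.ncard_le_ncard h1 (finite_singleton _)
      rw [ncard_singleton] at h2
      omega
    · right
      exact ⟨q, hbounds n hn q i hi j⟩
    · by_cases hmeet : ∃ i, ∃ hi : i < n q, ∃ j' : Fin p,
          (⟨_, BS_P hi j'⟩ : BS (k := k) (p := p) (s := s) θ n) ∈ orbK e (BS θ n) ⟨_, hv'⟩
      · right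
        obtain ⟨i, hi, j', h⟩ := hmeet
        rw [← orbK_eq h]
        exact ⟨q, hbounds n hn q i hi j'⟩
      · left
        have h1 : orbK e (BS θ n) ⟨_, hv'⟩ ⊆
            range (fun j : Fin s => (⟨_, BS_R n q j⟩ : BS (k := k) (p := p) (s := s) θ n)) := by
          intro w hw
          have hc := hcell n hn q ⟨_, hv'⟩ w ⟨_, _, rfl⟩ hw
          obtain ⟨x, hx⟩ := cellS_sub hθ n q hc
          rcases x with ⟨i, j'⟩ | j'
          · exact absurd ⟨i.1, i.2, j', by rw [← hx] at hw; exact hw⟩ hmeet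
          · exact ⟨j', hx⟩
        have h2 := Set.ncard_le_ncard h1 (toFinite _)
        rw [← image_univ] at h2
        have h3 := h2.trans (ncard_image_le (toFinite _))
        rw [ncard_univ] at h3
        simp at h3
        omega
  -- the family
  refine many_of e hb (Finset.univ.image Sum.inl)
    (fun x => BS θ fun q => NN p s (code x q)) ?_ ?_ ?_ ?_
  · intro a
    have h1 : {x : ℕ → Bool | a ∈ BS θ fun q => NN p s (code x q)} =
        {_x | ∃ y, a = Sum.inl y} ∪ ((⋃ q : ℚ, ⋃ i : ℕ, ⋃ j : Fin p,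
          ({x | i < NN p s (code x q)} ∩
            {_x | a = Sum.inr (θ (toLex (q, (i : WithTop ℕ))), Sum.inl j)})) ∪
        {_x | ∃ (q : ℚ) (j : Fin s), a = Sum.inr (θ (toLex (q, (⊤ : WithTop ℕ))), Sum.inr j)}) := by
      ext x
      simp only [BS, mem_ofPred_eq, mem_union, mem_iUnion, mem_inter_iff]
    rw [h1]
    refine (MeasurableSet.const _).union ((MeasurableSet.iUnion fun q => MeasurableSet.iUnion
      fun i => MeasurableSet.iUnion fun j => ?_).union (MeasurableSet.const _))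
    exact (measurableSet_code q fun m => i < NN p s m).inter (MeasurableSet.const _)
  · intro x
    have h1 : range (fun q : ℚ => (Sum.inr (θ (toLex (q, (⊤ : WithTop ℕ))),
        Sum.inr ⟨0, hs0⟩) : Fin k ⊕ ℚ × (Fin p ⊕ Fin s))) ⊆
        BS θ fun q => NN p s (code x q) := by
      rintro _ ⟨q, rfl⟩
      exact BS_R _ q _
    refine (Set.infinite_range_of_injective ?_).mono h1
    intro q q' h
    exact (th_inj hθ (Prod.mk.inj (Sum.inr_injective h)).1).1
  · intro x a ha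
    rw [Finset.mem_coe, Finset.mem_image] at ha
    obtain ⟨y, _, rfl⟩ := ha
    exact BS_inl _ y
  · intro x y φ hφ hφK
    apply code_inj
    intro q
    have hnx : ∀ q, 0 < (fun q => NN p s (code x q)) q := fun q =>
      lt_of_lt_of_le (by omega) (NN_ge p s (code x q))
    have hny : ∀ q, 0 < (fun q => NN p s (code y q)) q := fun q =>
      lt_of_lt_of_le (by omega) (NN_ge p s (code y q))
    have h1 := hbounds _ hnx q 0 (hnx q) ⟨0, hp0⟩
    have h2 := ncard_orbK_iso φ hφ (fun z hz => hφK z (by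
      obtain ⟨y', hy'⟩ := hz
      rw [hy']
      exact Finset.mem_image_of_mem _ (Finset.mem_univ _))) (BS_inl _) (BS_inl _)
      ⟨_, BS_P (hnx q) ⟨0, hp0⟩⟩
    rw [← h2] at h1
    have h3 := hall _ hny (φ ⟨_, BS_P (hnx q) ⟨0, hp0⟩⟩)
    have h4 := NN_ge p s (code x q)
    rcases h3 with h3 | ⟨q', h3, h5⟩
    · exfalso
      have h6 : NN p s (code x q) ≤ _ := h1.1
      omega
    · exact ⟨q', NN_disj h1.1 h1.2 h3 h5⟩

end Pool.Agent.H18.UV

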