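import Pool.Agent.H18.UV.U1

/-!
Module U2 of MP_5607ba_lc: minimal order configurations of two copies of the same tuple give
`Many`.
-/

set_option autoImplicit false

open Set Filter

namespace Pool.Agent.H18.UV

open Pool.Agent.H72.UV

lemma two_idx {κ ι σ σ' C : Type} {e : Str (κ ⊕ ℚ × ι) C} (ho : OrdInv e)
    (l : List (κ ⊕ (σ ⊕ σ'))) (ζ : σ → ι) (τ : σ' → ι) (a b a' b' : ℚ)
    (h : (a < b ∧ a' < b') ∨ (b < a ∧ b' < a')) :
    e (l.map (el (fun t => Sum.inr (a, ζ t)) fun t => Sum.inr (b, τ t))) =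
      e (l.map (el (fun t => Sum.inr (a', ζ t)) fun t => Sum.inr (b', τ t))) := by
  apply ordInv_congr ho
  · rintro (x | x | x) _ <;> rfl
  · have key : ∀ (x : κ ⊕ (σ ⊕ σ')) (u u' : ℚ) (i i' : ι),
        el (fun t => Sum.inr (a, ζ t)) (fun t => Sum.inr (b, τ t)) x = Sum.inr (u, i) →
        el (fun t => Sum.inr (a', ζ t)) (fun t => Sum.inr (b', τ t)) x = Sum.inr (u', i') →
        (u = a ∧ u' = a') ∨ (u = b ∧ u' = b') := by
      rintro (x | x | x) u u' i i' h1 h2
      · exact absurd h1 (by simp [el])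
      · exact Or.inl ⟨(Prod.mk.inj (Sum.inr_injective h1)).1.symm,
          (Prod.mk.inj (Sum.inr_injective h2)).1.symm⟩
      · exact Or.inr ⟨(Prod.mk.inj (Sum.inr_injective h1)).1.symm,
          (Prod.mk.inj (Sum.inr_injective h2)).1.symm⟩
    intro x _ y _ u v u' v' i1 j1 i1' j1' h1 h2 h3 h4
    rcases key x _ _ _ _ h1 h3 with ⟨rfl, rfl⟩ | ⟨rfl, rfl⟩ <;>
      rcases key y _ _ _ _ h2 h4 with ⟨rfl, rfl⟩ | ⟨rfl, rfl⟩ <;>
      rcases h with ⟨h, h'⟩ | ⟨h, h'⟩ <;>
      exact ⟨fun h => by linarith, fun h => by linarith⟩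

/-! ### close elements of a linear order -/

/-- between -/
def btw {L : Type} [LinearOrder L] (r t : L) : Set L := {w | (r < w ∧ w < t) ∨ (t < w ∧ w < r)}

/-- only finitely many elements between -/
def cl {L : Type} [LinearOrder L] (r : L) : Set L := {t | (btw r t).Finite}

lemma cl_ncard {L L' : Type} [LinearOrder L] [LinearOrder L'] (Φ : L → L')
    (hΦ : StrictMono Φ) (hs : Function.Surjective Φ) (r : L) : (cl (Φ r)).ncard = (cl r).ncard := by
  have h1 : ∀ t, btw (Φ r) (Φ t) = Φ '' btw r t := by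
    intro t
    ext w
    constructor
    · intro hw
      obtain ⟨w, rfl⟩ := hs w
      refine ⟨w, ?_, rfl⟩
      simp only [btw, mem_ofPred_eq, hΦ.lt_iff_lt] at hw ⊢
      exact hw
    · rintro ⟨w, hw, rfl⟩
      simp only [btw, mem_ofPred_eq, hΦ.lt_iff_lt] at hw ⊢
      exact hw
  have h2 : cl (Φ r) = Φ '' cl r := by
    ext t
    constructor
    · intro ht
      obtain ⟨t, rfl⟩ := hs t
      refine ⟨t, ?_, rfl⟩
      have h3 : (btw (Φ r) (Φ t)).Finite := ht
      rw [h1] at h3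
      exact h3.of_finite_image hΦ.injective.injOn
    · rintro ⟨t, ht, rfl⟩
      show (btw (Φ r) (Φ t)).Finite
      rw [h1]
      exact Set.Finite.image _ ht
  rw [h2, ncard_image_of_injective _ hΦ.injective]

/-- index sets -/
abbrev IX (n : ℚ → ℕ) : Type := {j : ℚ ×ₗ ℕ // (ofLex j).2 < n (ofLex j).1}

lemma IX_lt {n : ℚ → ℕ} (r t : IX n) : r < t ↔ (ofLex r.1).1 < (ofLex t.1).1 ∨
    ((ofLex r.1).1 = (ofLex t.1).1 ∧ (ofLex r.1).2 < (ofLex t.1).2) := by
  rw [← Subtype.coe_lt_coe]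
  exact Prod.Lex.lt_iff

lemma cl_IX {n : ℚ → ℕ} (hn : ∀ q, 0 < n q) (r : IX n) : (cl r).ncard = n (ofLex r.1).1 := by
  classical
  let f : Fin (n (ofLex r.1).1) → IX n := fun i => ⟨toLex ((ofLex r.1).1, i.1), i.2⟩
  have hf : Function.Injective f := by
    intro i j h
    have h1 := congrArg Subtype.val h
    have h2 : (((ofLex r.1).1, i.1) : ℚ × ℕ) = ((ofLex r.1).1, j.1) := toLex.injective h1
    exact Fin.ext (Prod.mk.inj h2).2
  have hr : ∀ t : IX n, (ofLex t.1).1 = (ofLex r.1).1 → t ∈ range f := by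
    intro t ht
    refine ⟨⟨(ofLex t.1).2, ht ▸ t.2⟩, ?_⟩
    apply Subtype.ext
    show toLex ((ofLex r.1).1, (ofLex t.1).2) = t.1
    rw [← ht]
    rfl
  have h1 : cl r = range f := by
    ext t
    constructor
    · intro ht
      apply hr
      by_contra hne
      have ht' : (btw r t).Finite := ht
      rcases lt_or_gt_of_ne hne with h | h
      · let g : ℚ → IX n := fun q => ⟨toLex (q, 0), hn q⟩
        have hg : Function.Injective g := by
          intro a b hab
          have h2 := congrArg Subtype.val hab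
          have h3 : ((a, 0) : ℚ × ℕ) = (b, 0) := toLex.injective h2
          exact (Prod.mk.inj h3).1
        have h2 : g '' Ioo (ofLex t.1).1 (ofLex r.1).1 ⊆ btw r t := by
          rintro _ ⟨q, hq, rfl⟩
          exact Or.inr ⟨(IX_lt _ _).2 (Or.inl hq.1), (IX_lt _ _).2 (Or.inl hq.2)⟩
        exact ((Set.Ioo_infinite h).image hg.injOn) (ht'.subset h2)
      · let g : ℚ → IX n := fun q => ⟨toLex (q, 0), hn q⟩
        have hg : Function.Injective g := by
          intro a b hab
          have h2 := congrArg Subtype.val hab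
          have h3 : ((a, 0) : ℚ × ℕ) = (b, 0) := toLex.injective h2
          exact (Prod.mk.inj h3).1
        have h2 : g '' Ioo (ofLex r.1).1 (ofLex t.1).1 ⊆ btw r t := by
          rintro _ ⟨q, hq, rfl⟩
          exact Or.inl ⟨(IX_lt _ _).2 (Or.inl hq.1), (IX_lt _ _).2 (Or.inl hq.2)⟩
        exact ((Set.Ioo_infinite h).image hg.injOn) (ht'.subset h2)
    · rintro ⟨i, rfl⟩
      refine (finite_range f).subset ?_
      intro w hw
      apply hr
      have hfi : (ofLex (f i).1).1 = (ofLex r.1).1 := rfl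
      rcases hw with ⟨h2, h3⟩ | ⟨h2, h3⟩
      · rw [IX_lt] at h2 h3
        rw [hfi] at h3
        have h4 : (ofLex r.1).1 ≤ (ofLex w.1).1 := h2.elim le_of_lt fun h => h.1.le
        have h5 : (ofLex w.1).1 ≤ (ofLex r.1).1 := h3.elim le_of_lt fun h => h.1.le
        exact le_antisymm h5 h4
      · rw [IX_lt] at h2 h3
        rw [hfi] at h2
        have h4 : (ofLex r.1).1 ≤ (ofLex w.1).1 := h2.elim le_of_lt fun h => h.1.le
        have h5 : (ofLex w.1).1 ≤ (ofLex r.1).1 := h3.elim le_of_lt fun h => h.1.le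
        exact le_antisymm h5 h4
  rw [h1, ← image_univ, ncard_image_of_injective _ hf, ncard_univ]
  simp

/-! ### the substructures -/

section u2

variable {k h : ℕ}

/-- the substructure -/
def CS (θ : ℚ ×ₗ ℕ → ℚ) (n : ℚ → ℕ) : Set (Fin k ⊕ ℚ × Fin h) :=
  {x | ((∃ y, x = Sum.inl y) ∨ (∃ i, x = Sum.inr (-1, i)) ∨ ∃ i, x = Sum.inr (2, i)) ∨
    ∃ (q : ℚ) (j : ℕ) (i : Fin h), j < n q ∧ x = Sum.inr (θ (toLex (q, j)), i)}

variable {θ : ℚ ×ₗ ℕ → ℚ} {C : Type} {e : Str (Fin k ⊕ ℚ × Fin h) C}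

lemma CS_X (n : ℚ → ℕ) (r : IX n) (i : Fin h) :
    (Sum.inr (θ r.1, i) : Fin k ⊕ ℚ × Fin h) ∈ CS θ n :=
  Or.inr ⟨(ofLex r.1).1, (ofLex r.1).2, i, r.2, rfl⟩

lemma CS_bot (n : ℚ → ℕ) (i : Fin h) : (Sum.inr (-1, i) : Fin k ⊕ ℚ × Fin h) ∈ CS θ n :=
  Or.inl (Or.inr (Or.inl ⟨i, rfl⟩))

lemma CS_top (n : ℚ → ℕ) (i : Fin h) : (Sum.inr (2, i) : Fin k ⊕ ℚ × Fin h) ∈ CS θ n :=
  Or.inl (Or.inr (Or.inr ⟨i, rfl⟩))

lemma CS_inl (n : ℚ → ℕ) (y : Fin k) : (Sum.inl y : Fin k ⊕ ℚ × Fin h) ∈ CS θ n :=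
  Or.inl (Or.inl ⟨y, rfl⟩)

/-- named elements -/
def isK (x : Fin k ⊕ ℚ × Fin h) : Prop :=
  (∃ y, x = Sum.inl y) ∨ (∃ i, x = Sum.inr (-1, i)) ∨ ∃ i, x = Sum.inr (2, i)

lemma CS_cases {n : ℚ → ℕ} {x : Fin k ⊕ ℚ × Fin h} (hx : x ∈ CS θ n) :
    isK x ∨ ∃ (r : IX n) (i : Fin h), x = Sum.inr (θ r.1, i) := by
  rcases hx with hx | ⟨q, j, i, hj, hx⟩
  · exact Or.inl hx
  · exact Or.inr ⟨⟨toLex (q, j), hj⟩, i, hx⟩

lemma not_isK {d : ℚ} (hd : 0 < d ∧ d < 1) (i : Fin h) :
    ¬ isK (Sum.inr (d, i) : Fin k ⊕ ℚ × Fin h) := by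
  rintro (⟨y, hy⟩ | ⟨j, hj⟩ | ⟨j, hj⟩)
  · exact absurd hy (by simp)
  · have := (Prod.mk.inj (Sum.inr_injective hj)).1
    linarith
  · have := (Prod.mk.inj (Sum.inr_injective hj)).1
    linarith

lemma iso_el {n n' : ℚ → ℕ} (φ : CS (k := k) (h := h) θ n ≃ CS (k := k) (h := h) θ n')
    (hφ : ∀ l : List (CS (k := k) (h := h) θ n), e (l.map fun z => (φ z).1) =
      e (l.map Subtype.val))
    (hK : ∀ z : CS (k := k) (h := h) θ n, isK z.1 → (φ z).1 = z.1)
    {σ σ' : Type} (l : List (Fin k ⊕ (σ ⊕ σ'))) (X : σ → CS (k := k) (h := h) θ n)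
    (Y : σ' → CS (k := k) (h := h) θ n) :
    e (l.map (el (fun t => (φ (X t)).1) fun t => (φ (Y t)).1)) =
      e (l.map (el (fun t => (X t).1) fun t => (Y t).1)) := by
  have h1 := hφ (l.map (Sum.elim (fun y => (⟨Sum.inl y, CS_inl n y⟩ : CS (k := k) (h := h) θ n))
    (Sum.elim X Y)))
  rw [List.map_map, List.map_map] at h1
  have h2 : l.map ((fun z => (φ z).1) ∘ (Sum.elim (fun y => (⟨Sum.inl y, CS_inl n y⟩ :
      CS (k := k) (h := h) θ n)) (Sum.elim X Y))) =
      l.map (el (fun t => (φ (X t)).1) fun t => (φ (Y t)).1) := by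
    apply List.map_congr_left
    rintro (y | t | t) _
    · exact hK _ (Or.inl ⟨y, rfl⟩)
    · rfl
    · rfl
  have h3 : l.map (Subtype.val ∘ (Sum.elim (fun y => (⟨Sum.inl y, CS_inl n y⟩ :
      CS (k := k) (h := h) θ n)) (Sum.elim X Y))) =
      l.map (el (fun t => (X t).1) fun t => (Y t).1) := by
    apply List.map_congr_left
    rintro (y | t | t) _ <;> rfl
  rw [h2, h3] at h1
  exact h1

end u2

lemma place2_eq {k h : ℕ} (a b : ℚ) : (place2 a b : Fin k ⊕ (Fin h ⊕ Fin h) → _) =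
    el (fun t => Sum.inr (a, t)) fun t => Sum.inr (b, t) := by
  funext x
  rcases x with x | x | x <;> rfl

theorem u2 (hS : T_SWAP) : T_U2 := by
  classical
  intro M C c h hμ k e hb ho ⟨l, hl⟩
  rw [place2_eq, place2_eq] at hl
  set α := e (l.map (el (fun t => Sum.inr (0, t)) fun t => Sum.inr (1, t))) with hα
  set β := e (l.map (el (fun t => Sum.inr (1, t)) fun t => Sum.inr (0, t))) with hβ
  have hA : ∀ a b : ℚ, a < b →
      e (l.map (el (fun t => Sum.inr (a, t)) fun t => Sum.inr (b, t))) = α := fun a b hab =>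
    two_idx ho l id id a b 0 1 (Or.inl ⟨hab, by norm_num⟩)
  have hB : ∀ a b : ℚ, b < a →
      e (l.map (el (fun t => Sum.inr (a, t)) fun t => Sum.inr (b, t))) = β := fun a b hab =>
    two_idx ho l id id a b 1 0 (Or.inr ⟨hab, by norm_num⟩)
  have hh : 0 < h := by
    by_contra hh
    obtain rfl : h = 0 := by omega
    apply hl
    rw [hα, hβ]
    congr 2
    funext x
    rcases x with x | x | x
    · rfl
    · exact x.elim0
    · exact x.elim0
  let z0 : Fin h := ⟨0, hh⟩
  have : Nonempty (Fin h) := ⟨z0⟩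
  have : Countable (ℚ ×ₗ ℕ) := inferInstanceAs (Countable (ℚ × ℕ))
  obtain ⟨θ, hθ, hθ'⟩ := exists_emb (ℚ ×ₗ ℕ) (show (0 : ℚ) < 1 by norm_num)
  -- the main claim
  have main : ∀ (n n' : ℚ → ℕ), (∀ q, 0 < n q) → (∀ q, 0 < n' q) →
      ∀ φ : CS (k := k) (h := h) θ n ≃ CS (k := k) (h := h) θ n',
      (∀ l : List (CS (k := k) (h := h) θ n), e (l.map fun z => (φ z).1) =
        e (l.map Subtype.val)) →
      (∀ z : CS (k := k) (h := h) θ n, isK z.1 → (φ z).1 = z.1) →
      ∀ q, ∃ q', n q = n' q' := by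
    intro n n' hn hn' φ hφ hK
    have hKmem : ∀ x : Fin k ⊕ ℚ × Fin h, isK x → x ∈ CS θ n := fun x hx => Or.inl hx
    -- claim 1
    have c1 : ∀ r : IX n, ∃ (r' : IX n') (π : Fin h → Fin h), Function.Injective π ∧
        ∀ i, (φ ⟨_, CS_X n r i⟩).1 = Sum.inr (θ r'.1, π i) := by
      intro r
      set Z : Fin h → Fin k ⊕ ℚ × Fin h := fun i => (φ ⟨_, CS_X n r i⟩).1 with hZ
      have hZX : ∀ i, ∃ (r' : IX n') (j : Fin h), Z i = Sum.inr (θ r'.1, j) := by
        intro i
        rcases CS_cases (φ ⟨_, CS_X n r i⟩).2 with h1 | h1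
        · exfalso
          have h2 := hK ⟨_, hKmem _ h1⟩ h1
          have h3 : φ ⟨_, hKmem _ h1⟩ = φ ⟨_, CS_X n r i⟩ := Subtype.ext h2
          have h4 := congrArg Subtype.val (φ.injective h3)
          have h5 : (φ ⟨_, CS_X n r i⟩).1 = Sum.inr (θ r.1, i) := h4
          rw [h5] at h1
          exact not_isK (hθ' _) i h1
        · exact h1
      have e1 : e (l.map (el (fun t => Sum.inr (-1, t)) Z)) = α := by
        have h1 := iso_el φ hφ hK l (fun t => ⟨_, CS_bot n t⟩) (fun t => ⟨_, CS_X n r t⟩)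
        have h2 : (fun t : Fin h => (φ (⟨_, CS_bot n t⟩ : CS (k := k) (h := h) θ n)).1) =
            fun t => Sum.inr (-1, t) := by
          funext t
          exact hK _ (Or.inr (Or.inl ⟨t, rfl⟩))
        rw [h2] at h1
        rw [h1]
        exact hA _ _ (lt_trans (by norm_num) (hθ' _).1)
      have e2 : e (l.map (el (fun t => Sum.inr (2, t)) Z)) = β := by
        have h1 := iso_el φ hφ hK l (fun t => ⟨_, CS_top n t⟩) (fun t => ⟨_, CS_X n r t⟩)
        have h2 : (fun t : Fin h => (φ (⟨_, CS_top n t⟩ : CS (k := k) (h := h) θ n)).1) =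
            fun t => Sum.inr (2, t) := by
          funext t
          exact hK _ (Or.inr (Or.inr ⟨t, rfl⟩))
        rw [h2] at h1
        rw [h1]
        exact hB _ _ (lt_trans (hθ' _).2 (by norm_num))
      have hsw : ∀ (X : Fin h → Fin k ⊕ ℚ × Fin h),
          (l.map (Sum.map id Sum.swap)).map (el Z X) = l.map (el X Z) := by
        intro X
        rw [List.map_map]
        congr 1
        funext x
        rcases x with x | x | x <;> rfl
      by_cases hspread : ∃ d : ℚ, ∀ t, ∃ i, Z t = Sum.inr (d, i)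
      · obtain ⟨d, hd⟩ := hspread
        choose π hπ using hd
        obtain ⟨r', j, hj⟩ := hZX z0
        have hdr : d = θ r'.1 := by
          rw [hπ z0] at hj
          exact (Prod.mk.inj (Sum.inr_injective hj)).1
        refine ⟨r', π, ?_, fun i => by rw [← hdr]; exact hπ i⟩
        intro i i' hii
        have h1 : Z i = Z i' := by rw [hπ i, hπ i', hii]
        have h2 := φ.injective (Subtype.ext h1)
        have h3 := congrArg Subtype.val h2
        exact (Prod.mk.inj (Sum.inr_injective h3)).2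
      · exfalso
        apply hl
        rw [← e1, ← e2, ← hsw, ← hsw]
        refine test_const hS hμ hb ho (by simp [two_mul]) (l.map (Sum.map id Sum.swap)) Z
          (fun d hd => hspread ⟨d, hd⟩) id (-1) 2 ?_ ?_
        · intro t i ht
          obtain ⟨r', j, hj⟩ := hZX t
          rw [ht] at hj
          have h1 := (Prod.mk.inj (Sum.inr_injective hj)).1
          have h2 := hθ' r'.1
          linarith
        · intro t i ht
          obtain ⟨r', j, hj⟩ := hZX t
          rw [ht] at hj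
          have h1 := (Prod.mk.inj (Sum.inr_injective hj)).1
          have h2 := hθ' r'.1
          linarith
    choose Φ π hπ hΦ using c1
    have hinj : Function.Injective Φ := by
      intro r t hrt
      obtain ⟨j, hj⟩ := (Finite.injective_iff_surjective.1 (hπ t)) (π r z0)
      have h1 : (φ ⟨_, CS_X n r z0⟩).1 = (φ ⟨_, CS_X n t j⟩).1 := by
        rw [hΦ r, hΦ t, hrt, hj]
      have h2 := congrArg Subtype.val (φ.injective (Subtype.ext h1))
      have h3 := (Prod.mk.inj (Sum.inr_injective h2)).1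
      exact Subtype.ext (hθ.injective h3)
    have hsurj : Function.Surjective Φ := by
      intro r'
      obtain ⟨z, hz⟩ := φ.surjective ⟨_, CS_X n' r' z0⟩
      rcases CS_cases z.2 with h1 | ⟨r, i, h1⟩
      · exfalso
        have h2 := hK z h1
        rw [hz] at h2
        rw [← h2] at h1
        exact not_isK (hθ' _) _ h1
      · refine ⟨r, ?_⟩
        have h2 : z = ⟨_, CS_X n r i⟩ := Subtype.ext h1
        have h3 := hΦ r i
        rw [← h2, hz] at h3
        have h4 := (Prod.mk.inj (Sum.inr_injective h3)).1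
        exact (Subtype.ext (hθ.injective h4)).symm
    have hmono : StrictMono Φ := by
      intro r t hrt
      by_contra hcon
      have hlt : Φ t < Φ r := lt_of_le_of_ne (not_lt.1 hcon) fun h => hrt.ne (hinj h.symm)
      have hlt' : θ (Φ t).1 < θ (Φ r).1 := hθ hlt
      have hrt' : θ r.1 < θ t.1 := hθ hrt
      have i1 : e (l.map (el (fun i => Sum.inr (θ (Φ r).1, π r i))
          fun i => Sum.inr (θ (Φ t).1, π t i))) = α := by
        have h1 := iso_el φ hφ hK l (fun i => ⟨_, CS_X n r i⟩) (fun i => ⟨_, CS_X n t i⟩)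
        rw [show (fun i => (φ ⟨_, CS_X n r i⟩).1) = fun i => Sum.inr (θ (Φ r).1, π r i) from
          funext (hΦ r), show (fun i => (φ ⟨_, CS_X n t i⟩).1) =
            fun i => Sum.inr (θ (Φ t).1, π t i) from funext (hΦ t)] at h1
        rw [h1]
        exact hA _ _ hrt'
      have i2 : ∀ a b : ℚ, a < b → e (l.map (el (fun i => Sum.inr (b, π r i))
          fun i => Sum.inr (a, i))) = β := by
        intro a b hab
        have h1 := iso_el φ hφ hK l (fun i => ⟨_, CS_X n r i⟩) (fun i => ⟨_, CS_bot n i⟩)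
        have h2 : (fun t : Fin h => (φ (⟨_, CS_bot n t⟩ : CS (k := k) (h := h) θ n)).1) =
            fun t => Sum.inr (-1, t) := by
          funext t
          exact hK _ (Or.inr (Or.inl ⟨t, rfl⟩))
        rw [show (fun i => (φ ⟨_, CS_X n r i⟩).1) = fun i => Sum.inr (θ (Φ r).1, π r i) from
          funext (hΦ r), h2] at h1
        have h3 : e (l.map (el (fun t => Sum.inr (θ r.1, t)) fun t => Sum.inr (-1, t))) = β :=
          hB _ _ (lt_trans (by norm_num) (hθ' _).1)
        have h4 := two_idx ho l (π r) id b a (θ (Φ r).1) (-1)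
          (Or.inr ⟨hab, lt_trans (by norm_num) (hθ' _).1⟩)
        exact h4.trans (h1.trans h3)
      have i3 : e (l.map (el (fun i => Sum.inr (2, π r i))
          fun i => Sum.inr (θ (Φ t).1, π t i))) = β := by
        have h1 := iso_el φ hφ hK l (fun i => ⟨_, CS_top n (π r i)⟩)
          (fun i => ⟨_, CS_X n t i⟩)
        have h2 : (fun i : Fin h => (φ (⟨_, CS_top n (π r i)⟩ : CS (k := k) (h := h) θ n)).1) =
            fun i => Sum.inr (2, π r i) := by
          funext i
          exact hK _ (Or.inr (Or.inr ⟨π r i, rfl⟩))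
        rw [h2, show (fun i => (φ ⟨_, CS_X n t i⟩).1) =
            fun i => Sum.inr (θ (Φ t).1, π t i) from funext (hΦ t)] at h1
        rw [h1]
        exact i2 _ _ (lt_trans (hθ' _).2 (by norm_num))
      have i4 := two_idx ho l (π r) (π t) (θ (Φ r).1) (θ (Φ t).1) 2 (θ (Φ t).1)
        (Or.inr ⟨hlt', lt_trans (hθ' _).2 (by norm_num)⟩)
      exact hl (i1.symm.trans (i4.trans i3))
    intro q
    let r : IX n := ⟨toLex (q, 0), hn q⟩
    refine ⟨(ofLex (Φ r).1).1, ?_⟩
    have h1 := cl_ncard Φ hmono hsurj r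
    rw [cl_IX hn', cl_IX hn] at h1
    exact h1.symm
  -- the family
  refine many_of e hb (Finset.univ.image Sum.inl ∪ (Finset.univ.image (fun i => Sum.inr (-1, i)) ∪
    Finset.univ.image fun i => Sum.inr (2, i)))
    (fun x => CS θ fun q => code x q + 1) ?_ ?_ ?_ ?_
  · intro a
    have h1 : {x : ℕ → Bool | a ∈ CS θ fun q => code x q + 1} =
        {_x | isK a} ∪ (⋃ q : ℚ, ⋃ j : ℕ, ⋃ i : Fin h,
          ({x | j < code x q + 1} ∩ {_x | a = Sum.inr (θ (toLex (q, j)), i)})) := by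
      ext x
      simp only [CS, isK, mem_ofPred_eq, mem_union, mem_iUnion, mem_inter_iff]
    rw [h1]
    refine (MeasurableSet.const _).union (MeasurableSet.iUnion fun q => MeasurableSet.iUnion
      fun j => MeasurableSet.iUnion fun i => ?_)
    exact (measurableSet_code q fun m => j < m + 1).inter (MeasurableSet.const _)
  · intro x
    have h1 : range (fun q : ℚ => (Sum.inr (θ (toLex (q, 0)), z0) : Fin k ⊕ ℚ × Fin h)) ⊆
        CS θ fun q => code x q + 1 := by
      rintro _ ⟨q, rfl⟩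
      exact Or.inr ⟨q, 0, z0, Nat.succ_pos _, rfl⟩
    refine (Set.infinite_range_of_injective ?_).mono h1
    intro q q' hq
    have h2 := hθ.injective (Prod.mk.inj (Sum.inr_injective hq)).1
    have h3 : ((q, 0) : ℚ × ℕ) = (q', 0) := toLex.injective h2
    exact (Prod.mk.inj h3).1
  · intro x a ha
    rw [Finset.mem_coe, Finset.mem_union, Finset.mem_union, Finset.mem_image, Finset.mem_image,
      Finset.mem_image] at ha
    rcases ha with ⟨y, _, rfl⟩ | ⟨y, _, rfl⟩ | ⟨y, _, rfl⟩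
    · exact CS_inl _ y
    · exact CS_bot _ y
    · exact CS_top _ y
  · intro x y φ hφ hφK
    apply code_inj
    intro q
    obtain ⟨q', hq'⟩ := main _ _ (fun q => Nat.succ_pos _) (fun q => Nat.succ_pos _) φ hφ
      (fun z hz => hφK z (by
        rw [Finset.mem_union, Finset.mem_union, Finset.mem_image, Finset.mem_image,
          Finset.mem_image]
        rcases hz with ⟨y', hy'⟩ | ⟨y', hy'⟩ | ⟨y', hy'⟩
        · exact Or.inl ⟨y', Finset.mem_univ _, hy'.symm⟩
        · exact Or.inr (Or.inl ⟨y', Finset.mem_univ _, hy'.symm⟩)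
        · exact Or.inr (Or.inr ⟨y', Finset.mem_univ _, hy'.symm⟩))) q
    exact ⟨q', Nat.succ_injective hq'⟩

end Pool.Agent.H18.UV
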