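import Pool.Agent.H18.UV.Move

/-!
Automorphisms of finite support respect the cells (used for U1), orbits.
-/

set_option autoImplicit false

open Set Filter

namespace Pool.Agent.H18.UV

open Pool.Agent.H72.UV

/-- a tuple at one index feels only the side of the test tuple -/
lemma one_idx {κ ι σ σ' C : Type} {e : Str (κ ⊕ ℚ × ι) C} (ho : OrdInv e)
    (l : List (κ ⊕ (σ ⊕ σ'))) (ζ : σ → ι) (τ : σ' → ι) (a b d : ℚ)
    (h : (a < d ∧ b < d) ∨ (d < a ∧ d < b)) :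
    e (l.map (el (fun t => Sum.inr (d, ζ t)) fun t => Sum.inr (a, τ t))) =
      e (l.map (el (fun t => Sum.inr (d, ζ t)) fun t => Sum.inr (b, τ t))) := by
  apply ordInv_congr ho
  · rintro (x | x | x) _ <;> rfl
  · have key : ∀ (x : κ ⊕ (σ ⊕ σ')) (u u' : ℚ) (i i' : ι),
        el (fun t => Sum.inr (d, ζ t)) (fun t => Sum.inr (a, τ t)) x = Sum.inr (u, i) →
        el (fun t => Sum.inr (d, ζ t)) (fun t => Sum.inr (b, τ t)) x = Sum.inr (u', i') →
        (u = d ∧ u' = d) ∨ (u = a ∧ u' = b) := by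
      rintro (x | x | x) u u' i i' h1 h2
      · exact absurd h1 (by simp [el])
      · exact Or.inl ⟨(Prod.mk.inj (Sum.inr_injective h1)).1.symm,
          (Prod.mk.inj (Sum.inr_injective h2)).1.symm⟩
      · exact Or.inr ⟨(Prod.mk.inj (Sum.inr_injective h1)).1.symm,
          (Prod.mk.inj (Sum.inr_injective h2)).1.symm⟩
    intro x _ y _ u v u' v' i1 j1 i1' j1' h1 h2 h3 h4
    rcases key x _ _ _ _ h1 h3 with ⟨rfl, rfl⟩ | ⟨rfl, rfl⟩ <;>
      rcases key y _ _ _ _ h2 h4 with ⟨rfl, rfl⟩ | ⟨rfl, rfl⟩ <;>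
      rcases h with ⟨h, h'⟩ | ⟨h, h'⟩ <;>
      first
        | exact ⟨id, id⟩
        | exact ⟨fun h => absurd h (lt_irrefl _), fun _ => rfl⟩
        | exact ⟨fun h => by linarith, fun h => by linarith⟩

/-- finitely supported automorphisms of the substructure on `S` fixing the constants -/
structure AutK {κ J ι C : Type} (e : Str (κ ⊕ J × ι) C) (S : Set (κ ⊕ J × ι))
    (g : Equiv.Perm S) : Prop where
  iso : ∀ l : List S, e (l.map fun z => (g z).1) = e (l.map Subtype.val)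
  fixK : ∀ z : S, (∃ y, z.1 = Sum.inl y) → g z = z
  fin : {z | g z ≠ z}.Finite

lemma cell_fix {M C : Type} (hS : T_SWAP) {c : Str M C} {μ : ℕ}
    (hμ : ∀ μ' < μ, ¬ OrdCfg c μ') {κ ι σ σ' : Type} [Finite κ] [Finite ι] [Finite σ] [Nonempty σ]
    [Finite σ'] {e : Str (κ ⊕ ℚ × ι) C} (hb : Below e c) (ho : OrdInv e)
    (hcard : Nat.card σ + Nat.card σ' ≤ μ)
    {θ : ℚ ×ₗ WithTop ℕ → ℚ} (hθ : StrictMono θ)
    (S : Set (κ ⊕ ℚ × ι)) (hSidx : ∀ d i, Sum.inr (d, i) ∈ S → ∃ q w, d = θ (toLex (q, w)))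
    (hSK : ∀ y, Sum.inl y ∈ S) (g : Equiv.Perm S) (hg : AutK e S g)
    (l : List (κ ⊕ (σ ⊕ σ'))) (τ : σ → ι) (τ' : σ' → ι) (q : ℚ) (w w' : WithTop ℕ)
    (hT : ∀ t, Sum.inr (θ (toLex (q, w)), τ t) ∈ S)
    (hT' : ∀ q' t, Sum.inr (θ (toLex (q', w')), τ' t) ∈ S) (v1 v2 : C) (hv : v1 ≠ v2)
    (hlt : ∀ a b : ℚ, a < b →
      e (l.map (el (fun t => Sum.inr (b, τ t)) fun t => Sum.inr (a, τ' t))) = v1)
    (hgt : ∀ a b : ℚ, b < a →
      e (l.map (el (fun t => Sum.inr (b, τ t)) fun t => Sum.inr (a, τ' t))) = v2) :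
    ∀ t, ∃ w'' i, (g ⟨_, hT t⟩).1 = Sum.inr (θ (toLex (q, w'')), i) := by
  classical
  set Z : σ → κ ⊕ ℚ × ι := fun t => (g ⟨_, hT t⟩).1 with hZ
  have hZinr : ∀ t, ∃ q' w'' i, Z t = Sum.inr (θ (toLex (q', w'')), i) := by
    intro t
    rcases hz : Z t with y | ⟨d, i⟩
    · exfalso
      have h1 : g ⟨_, hT t⟩ = ⟨Sum.inl y, hSK y⟩ := Subtype.ext hz
      have h2 := hg.fixK ⟨Sum.inl y, hSK y⟩ ⟨y, rfl⟩
      have h3 := g.injective (h1.trans h2.symm)
      have h4 := congrArg Subtype.val h3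
      simp at h4
    · have hmem : Z t ∈ S := (g ⟨_, hT t⟩).2
      rw [hz] at hmem
      obtain ⟨q', w'', rfl⟩ := hSidx d i hmem
      exact ⟨q', w'', i, rfl⟩
  have inj : ∀ (q q' : ℚ) (s t : WithTop ℕ), θ (toLex (q, s)) = θ (toLex (q', t)) →
      q = q' ∧ s = t := by
    intro q q' s t h
    have h2 : ((q, s) : ℚ × WithTop ℕ) = (q', t) := toLex.injective (hθ.injective h)
    exact Prod.mk.inj h2
  have lt1 : ∀ (q q' : ℚ) (s t : WithTop ℕ), q < q' → θ (toLex (q, s)) < θ (toLex (q', t)) :=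
    fun q q' s t h => hθ (Prod.Lex.toLex_lt_toLex.2 (Or.inl h))
  let Good : ℚ → Prop := fun q' => (∀ t, g ⟨_, hT' q' t⟩ = ⟨_, hT' q' t⟩) ∧
    ∀ t i, Z t ≠ Sum.inr (θ (toLex (q', w')), i)
  have hbad : {q' | ¬ Good q'}.Finite := by
    have h1 : {q' | ∃ t, g ⟨_, hT' q' t⟩ ≠ ⟨_, hT' q' t⟩}.Finite := by
      have h2 : {q' | ∃ t, g ⟨_, hT' q' t⟩ ≠ ⟨_, hT' q' t⟩} =
          ⋃ t, {q' | g ⟨_, hT' q' t⟩ ≠ ⟨_, hT' q' t⟩} := by
        ext q'; simp
      rw [h2]
      refine Set.finite_iUnion fun t => ?_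
      refine hg.fin.preimage (f := fun q' : ℚ => (⟨_, hT' q' t⟩ : S)) ?_
      intro q1 _ q2 _ h3
      have h4 := congrArg Subtype.val h3
      have h5 := (Prod.mk.inj (Sum.inr_injective h4)).1
      exact (inj _ _ _ _ h5).1
    have h2 : {q' | ∃ t i, Z t = Sum.inr (θ (toLex (q', w')), i)}.Finite := by
      have h3 : {q' | ∃ t i, Z t = Sum.inr (θ (toLex (q', w')), i)} =
          ⋃ t, {q' | ∃ i, Z t = Sum.inr (θ (toLex (q', w')), i)} := by
        ext q'; simp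
      rw [h3]
      refine Set.finite_iUnion fun t => ?_
      refine Set.Subsingleton.finite ?_
      rintro q1 ⟨i1, h4⟩ q2 ⟨i2, h5⟩
      rw [h4] at h5
      exact (inj _ _ _ _ (Prod.mk.inj (Sum.inr_injective h5)).1).1
    refine (h1.union h2).subset ?_
    intro q' hq'
    by_contra hcon
    apply hq'
    simp only [mem_union, not_or] at hcon
    refine ⟨fun t => ?_, fun t i h => hcon.2 ⟨t, i, h⟩⟩
    by_contra h
    exact hcon.1 ⟨t, h⟩
  have hgood : ∀ a b : ℚ, a < b → ∃ q', a < q' ∧ q' < b ∧ Good q' := by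
    intro a b hab
    obtain ⟨q', hq', hq2⟩ := ((Set.Ioo_infinite hab).sdiff hbad).nonempty
    refine ⟨q', hq'.1, hq'.2, ?_⟩
    by_contra h
    exact hq2 h
  have hval : ∀ q', Good q' →
      e (l.map (el Z fun t => Sum.inr (θ (toLex (q', w')), τ' t))) =
      e (l.map (el (fun t => Sum.inr (θ (toLex (q, w)), τ t))
        fun t => Sum.inr (θ (toLex (q', w')), τ' t))) := by
    intro q' hq'
    let L : List S := l.map (Sum.elim (fun y => (⟨Sum.inl y, hSK y⟩ : S))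
      (Sum.elim (fun t => (⟨_, hT t⟩ : S)) (fun t => (⟨_, hT' q' t⟩ : S))))
    have h1 := hg.iso L
    have h2 : (L.map fun z => (g z).1) =
        l.map (el Z fun t => Sum.inr (θ (toLex (q', w')), τ' t)) := by
      rw [List.map_map]
      apply List.map_congr_left
      rintro (y | t | t) _
      · show (g ⟨Sum.inl y, hSK y⟩).1 = Sum.inl y
        rw [hg.fixK _ ⟨y, rfl⟩]
      · rfl
      · show (g ⟨_, hT' q' t⟩).1 = Sum.inr (θ (toLex (q', w')), τ' t)
        rw [hq'.1 t]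
    have h3 : (L.map Subtype.val) = l.map (el (fun t => Sum.inr (θ (toLex (q, w)), τ t))
        fun t => Sum.inr (θ (toLex (q', w')), τ' t)) := by
      rw [List.map_map]
      apply List.map_congr_left
      rintro (y | t | t) _ <;> rfl
    rw [h2, h3] at h1
    exact h1
  have hval1 : ∀ q', Good q' → q' < q →
      e (l.map (el Z fun t => Sum.inr (θ (toLex (q', w')), τ' t))) = v1 := by
    intro q' hq' h
    rw [hval q' hq']
    exact hlt _ _ (lt1 _ _ _ _ h)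
  have hval2 : ∀ q', Good q' → q < q' →
      e (l.map (el Z fun t => Sum.inr (θ (toLex (q', w')), τ' t))) = v2 := by
    intro q' hq' h
    rw [hval q' hq']
    exact hgt _ _ (lt1 _ _ _ _ h)
  by_cases hspread : ∃ d : ℚ, ∀ t, ∃ i, Z t = Sum.inr (d, i)
  · obtain ⟨d, hd⟩ := hspread
    choose ζ hζ using hd
    have hZf : Z = fun t => Sum.inr (d, ζ t) := funext hζ
    obtain ⟨t0⟩ := (inferInstance : Nonempty σ)
    obtain ⟨qd, wd, i0, hd0⟩ := hZinr t0
    have hdq : d = θ (toLex (qd, wd)) := by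
      rw [hζ t0] at hd0
      exact (Prod.mk.inj (Sum.inr_injective hd0)).1
    rcases lt_trichotomy qd q with h | h | h
    · exfalso
      obtain ⟨q1, h1, h2, h3⟩ := hgood qd q h
      obtain ⟨q2, h4, _, h6⟩ := hgood q (q + 1) (by linarith)
      apply hv
      rw [← hval1 q1 h3 h2, ← hval2 q2 h6 h4, hZf]
      apply one_idx ho
      right
      rw [hdq]
      exact ⟨lt1 _ _ _ _ h1, lt1 _ _ _ _ (h.trans h4)⟩
    · subst h
      intro t
      exact ⟨wd, ζ t, by rw [← hdq]; exact hζ t⟩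
    · exfalso
      obtain ⟨q1, _, h2, h3⟩ := hgood (q - 1) q (by linarith)
      obtain ⟨q2, h4, h5, h6⟩ := hgood q qd h
      apply hv
      rw [← hval1 q1 h3 h2, ← hval2 q2 h6 h4, hZf]
      apply one_idx ho
      left
      rw [hdq]
      exact ⟨lt1 _ _ _ _ (h2.trans h), lt1 _ _ _ _ h5⟩
  · exfalso
    obtain ⟨q1, _, h2, h3⟩ := hgood (q - 1) q (by linarith)
    obtain ⟨q2, h4, _, h6⟩ := hgood q (q + 1) (by linarith)
    apply hv
    rw [← hval1 q1 h3 h2, ← hval2 q2 h6 h4]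
    exact test_const hS hμ hb ho hcard l Z (fun d h => hspread ⟨d, h⟩) τ' _ _ h3.2 h6.2

section orbits

variable {κ J ι C : Type} {e : Str (κ ⊕ J × ι) C} {S T : Set (κ ⊕ J × ι)}

lemma AutK.one : AutK e S 1 :=
  ⟨fun _ => rfl, fun _ _ => rfl, by simp⟩

lemma AutK.mul {g h : Equiv.Perm S} (hg : AutK e S g) (hh : AutK e S h) : AutK e S (g * h) := by
  refine ⟨fun l => ?_, fun z hz => ?_, ?_⟩
  · have h1 := hg.iso (l.map h)
    rw [List.map_map, List.map_map] at h1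
    rw [← hh.iso l]
    exact h1
  · rw [Equiv.Perm.mul_apply, hh.fixK z hz, hg.fixK z hz]
  · refine (hg.fin.union hh.fin).subset ?_
    intro z hz
    by_contra hcon
    simp only [mem_union, mem_ofPred_eq, not_or, not_not] at hcon
    apply hz
    rw [Equiv.Perm.mul_apply, hcon.2, hcon.1]

lemma AutK.inv {g : Equiv.Perm S} (hg : AutK e S g) : AutK e S g⁻¹ := by
  refine ⟨fun l => ?_, fun z hz => ?_, ?_⟩
  · have h1 := hg.iso (l.map (g⁻¹ : Equiv.Perm S))
    rw [List.map_map, List.map_map] at h1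
    have h2 : l.map ((fun z => (g z).1) ∘ (g⁻¹ : Equiv.Perm S)) = l.map Subtype.val := by
      apply List.map_congr_left
      intro z _
      simp
    rw [h2] at h1
    exact h1.symm
  · rw [Equiv.Perm.inv_eq_iff_eq, hg.fixK z hz]
  · refine hg.fin.subset ?_
    intro z hz h
    apply hz
    rw [Equiv.Perm.inv_eq_iff_eq, h]

/-- orbits -/
def orbK (e : Str (κ ⊕ J × ι) C) (S : Set (κ ⊕ J × ι)) (v : S) : Set S :=
  {w | ∃ g, AutK e S g ∧ g v = w}

lemma orbK_refl (v : S) : v ∈ orbK e S v := ⟨1, AutK.one, rfl⟩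

lemma orbK_trans {u v w : S} (h : v ∈ orbK e S u) (h' : w ∈ orbK e S v) : w ∈ orbK e S u := by
  obtain ⟨g, hg, rfl⟩ := h
  obtain ⟨g', hg', rfl⟩ := h'
  exact ⟨g' * g, hg'.mul hg, rfl⟩

lemma orbK_symm {u v : S} (h : v ∈ orbK e S u) : u ∈ orbK e S v := by
  obtain ⟨g, hg, rfl⟩ := h
  exact ⟨g⁻¹, hg.inv, by simp⟩

lemma orbK_eq {u v : S} (h : v ∈ orbK e S u) : orbK e S v = orbK e S u :=
  Subset.antisymm (fun _ hw => orbK_trans h hw) (fun _ hw => orbK_trans (orbK_symm h) hw)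

lemma AutK.conj {g : Equiv.Perm S} (hg : AutK e S g) (φ : S ≃ T)
    (hφ : ∀ l : List S, e (l.map fun z => (φ z).1) = e (l.map Subtype.val))
    (hK : ∀ z : S, (∃ y, z.1 = Sum.inl y) → (φ z).1 = z.1)
    (hSK : ∀ y, Sum.inl y ∈ S) : AutK e T ((φ.symm.trans g).trans φ) := by
  refine ⟨fun l => ?_, ?_, ?_⟩
  · have h1 := hφ ((l.map φ.symm).map g)
    have h2 := hg.iso (l.map φ.symm)
    have h3 := hφ (l.map φ.symm)
    simp only [List.map_map] at h1 h2 h3
    have h4 : l.map ((fun z => (φ z).1) ∘ φ.symm) = l.map Subtype.val := by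
      apply List.map_congr_left
      intro z _
      simp
    rw [h4] at h3
    rw [h3, ← h2]
    exact h1
  · rintro z ⟨y, hy⟩
    have h1 : φ ⟨Sum.inl y, hSK y⟩ = z := by
      apply Subtype.ext
      rw [hK _ ⟨y, rfl⟩, hy]
    show φ (g (φ.symm z)) = z
    rw [← h1, Equiv.symm_apply_apply, hg.fixK _ ⟨y, rfl⟩]
  · refine (hg.fin.image φ).subset ?_
    intro z hz
    refine ⟨φ.symm z, ?_, by simp⟩
    intro h
    apply hz
    show φ (g (φ.symm z)) = z
    rw [h, Equiv.apply_symm_apply]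

lemma orbK_iso (φ : S ≃ T)
    (hφ : ∀ l : List S, e (l.map fun z => (φ z).1) = e (l.map Subtype.val))
    (hK : ∀ z : S, (∃ y, z.1 = Sum.inl y) → (φ z).1 = z.1)
    (hSK : ∀ y, Sum.inl y ∈ S) (hTK : ∀ y, Sum.inl y ∈ T) (v : S) :
    orbK e T (φ v) = φ '' orbK e S v := by
  ext w
  constructor
  · rintro ⟨g, hg, rfl⟩
    have hφ' : ∀ l : List T, e (l.map fun z => (φ.symm z).1) = e (l.map Subtype.val) := by
      intro l
      have h3 := hφ (l.map φ.symm)
      rw [List.map_map, List.map_map] at h3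
      have h4 : l.map ((fun z => (φ z).1) ∘ φ.symm) = l.map Subtype.val := by
        apply List.map_congr_left
        intro z _
        simp
      rw [h4] at h3
      exact h3.symm
    have hK' : ∀ z : T, (∃ y, z.1 = Sum.inl y) → (φ.symm z).1 = z.1 := by
      rintro z ⟨y, hy⟩
      have h1 : φ ⟨Sum.inl y, hSK y⟩ = z := by
        apply Subtype.ext
        rw [hK _ ⟨y, rfl⟩, hy]
      rw [← h1, Equiv.symm_apply_apply, h1, hy]
    refine ⟨φ.symm (g (φ v)), ⟨_, hg.conj φ.symm hφ' hK' hTK, rfl⟩, by simp⟩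
  · rintro ⟨_, ⟨g, hg, rfl⟩, rfl⟩
    exact ⟨_, hg.conj φ hφ hK hSK, by simp⟩

lemma ncard_orbK_iso (φ : S ≃ T)
    (hφ : ∀ l : List S, e (l.map fun z => (φ z).1) = e (l.map Subtype.val))
    (hK : ∀ z : S, (∃ y, z.1 = Sum.inl y) → (φ z).1 = z.1)
    (hSK : ∀ y, Sum.inl y ∈ S) (hTK : ∀ y, Sum.inl y ∈ T) (v : S) :
    (orbK e T (φ v)).ncard = (orbK e S v).ncard := by
  rw [orbK_iso φ hφ hK hSK hTK v, ncard_image_of_injective _ φ.injective]

end orbits

end Pool.Agent.H18.UV
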