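import Pool.Agent.H72.UV.Basic
import Pool.Agent.H72.UV.Targets

/-!
Common lemmas on order-invariant structures (modules SWAP, U1, U2, OPT).
-/

set_option autoImplicit false

open Set Filter

namespace Pool.Agent.H18.UV

open Pool.Agent.H72.UV

/-- lists with the same shape and the same order of the indices have the same value -/
lemma ordInv_congr {κ J ι C α : Type} [LinearOrder J] {e : Str (κ ⊕ J × ι) C} (he : OrdInv e)
    (l : List α) (g1 g2 : α → κ ⊕ J × ι)
    (h0 : ∀ x ∈ l, Sum.map id Prod.snd (g1 x) = Sum.map id Prod.snd (g2 x))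
    (h1 : ∀ x ∈ l, ∀ y ∈ l, ∀ a b a' b' i j i' j', g1 x = Sum.inr (a, i) →
      g1 y = Sum.inr (b, j) → g2 x = Sum.inr (a', i') → g2 y = Sum.inr (b', j') →
      (a < b → a' < b') ∧ (a = b → a' = b')) : e (l.map g1) = e (l.map g2) := by
  classical
  set f : J → J := fun a => if h : ∃ a', ∃ x ∈ l, ∃ i i', g1 x = Sum.inr (a, i) ∧
    g2 x = Sum.inr (a', i') then h.choose else a with hf
  have key : ∀ x ∈ l, ∀ a i a' i', g1 x = Sum.inr (a, i) → g2 x = Sum.inr (a', i') →
      f a = a' := by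
    intro x hx a i a' i' h h'
    have hex : ∃ a', ∃ x ∈ l, ∃ i i', g1 x = Sum.inr (a, i) ∧ g2 x = Sum.inr (a', i') :=
      ⟨a', x, hx, i, i', h, h'⟩
    have hfa : f a = hex.choose := by rw [hf]; exact dif_pos hex
    obtain ⟨y, hy, j, j', e1, e2⟩ := hex.choose_spec
    rw [hfa]
    exact (h1 y hy x hx _ _ _ _ _ _ _ _ e1 h e2 h').2 rfl
  have hmap : ∀ x ∈ l, mapIdx f (g1 x) = g2 x := by
    intro x hx
    have h := h0 x hx
    rcases hg1 : g1 x with y | ⟨a, i⟩
    · rcases hg2 : g2 x with z | ⟨a', i'⟩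
      · rw [hg1, hg2] at h
        simp only [Sum.map_inl, id] at h
        rw [Sum.inl_injective h]
        rfl
      · rw [hg1, hg2] at h
        simp at h
    · rcases hg2 : g2 x with z | ⟨a', i'⟩
      · rw [hg1, hg2] at h
        simp at h
      · rw [hg1, hg2] at h
        simp only [Sum.map_inr] at h
        have h2 := Sum.inr_injective h
        simp only [mapIdx, Sum.map_inr, Prod.map, id]
        rw [key x hx a i a' i' hg1 hg2, h2]
  have hl : (l.map g1).map (mapIdx f) = l.map g2 := by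
    rw [List.map_map]
    exact List.map_congr_left hmap
  rw [← hl]
  refine (he _ f ?_).symm
  rintro a ⟨i, hi⟩ b ⟨j, hj⟩ hab
  obtain ⟨x, hx, hx'⟩ := List.mem_map.1 hi
  obtain ⟨y, hy, hy'⟩ := List.mem_map.1 hj
  have hx2 := hmap x hx
  have hy2 := hmap y hy
  rw [hx'] at hx2
  rw [hy'] at hy2
  exact (h1 x hx y hy _ _ _ _ _ _ _ _ hx' hy' hx2.symm hy2.symm).1 hab

/-- countable linear orders embed into intervals of `ℚ` -/
lemma exists_emb (J : Type) [LinearOrder J] [Countable J] {a b : ℚ} (h : a < b) :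
    ∃ θ : J → ℚ, StrictMono θ ∧ ∀ j, a < θ j ∧ θ j < b := by
  have : Nontrivial (Set.Ioo a b) := by
    obtain ⟨x, hx1, hx2⟩ := exists_between h
    obtain ⟨y, hy1, hy2⟩ := exists_between hx2
    exact ⟨⟨⟨x, hx1, hx2⟩, ⟨y, hx1.trans hy1, hy2⟩, fun he => hy1.ne (congrArg Subtype.val he)⟩⟩
  obtain ⟨f⟩ := Order.embedding_from_countable_to_dense J (Set.Ioo a b)
  exact ⟨fun j => (f j).1, fun i j hij => f.strictMono hij, fun j => (f j).2⟩

lemma usedIdx_finite {κ J ι : Type} (l : List (κ ⊕ J × ι)) : (usedIdx l).Finite := by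
  classical
  have h : (Set.Finite {x | x ∈ l}) := l.finite_toSet
  refine ((h.image fun x => Sum.elim (fun _ => (none : Option J)) (fun y => some y.1) x).preimage
    (f := fun j : J => some j) (fun a _ b _ hab => Option.some.inj hab)).subset ?_
  rintro j ⟨i, hi⟩
  exact ⟨_, hi, rfl⟩

lemma exists_lt_forall_le {F : Set ℚ} (hF : F.Finite) {a : ℚ} (h : ∀ j ∈ F, j < a) :
    ∃ a' < a, ∀ j ∈ F, j ≤ a' := by
  induction F, hF using Set.Finite.induction_on with
  | empty => exact ⟨a - 1, by linarith, fun j hj => absurd hj (notMem_empty j)⟩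
  | @insert b F _ _ ih =>
    obtain ⟨a', ha', h2⟩ := ih fun j hj => h j (mem_insert_of_mem _ hj)
    refine ⟨max a' b, max_lt ha' (h b (mem_insert _ _)), ?_⟩
    rintro j (rfl | hj)
    · exact le_max_right _ _
    · exact (h2 j hj).trans (le_max_left _ _)

lemma exists_gt_forall_le {F : Set ℚ} (hF : F.Finite) {a : ℚ} (h : ∀ j ∈ F, a < j) :
    ∃ a' > a, ∀ j ∈ F, a' ≤ j := by
  induction F, hF using Set.Finite.induction_on with
  | empty => exact ⟨a + 1, by linarith, fun j hj => absurd hj (notMem_empty j)⟩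
  | @insert b F _ _ ih =>
    obtain ⟨a', ha', h2⟩ := ih fun j hj => h j (mem_insert_of_mem _ hj)
    refine ⟨min a' b, lt_min ha' (h b (mem_insert _ _)), ?_⟩
    rintro j (rfl | hj)
    · exact min_le_right _ _
    · exact (min_le_left _ _).trans (h2 j hj)

lemma exists_interval {κ ι : Type} {l : List (κ ⊕ ℚ × ι)} {a b : ℚ} (h : Adj l a b) :
    ∃ a' b', a' < a ∧ b < b' ∧ ∀ j ∈ usedIdx l, j ≠ a → j ≠ b → j ≤ a' ∨ b' ≤ j := by
  obtain ⟨a', ha', h1⟩ := exists_lt_forall_le
    ((usedIdx_finite l).subset (sep_subset _ fun j => j < a)) (a := a) (fun j hj => hj.2)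
  obtain ⟨b', hb', h2⟩ := exists_gt_forall_le
    ((usedIdx_finite l).subset (sep_subset _ fun j => b < j)) (a := b) (fun j hj => hj.2)
  refine ⟨a', b', ha', hb', fun j hj hja hjb => ?_⟩
  rcases h.2 j hj with h3 | h3
  · exact Or.inl (h1 j ⟨hj, lt_of_le_of_ne h3 hja⟩)
  · exact Or.inr (h2 j ⟨hj, lt_of_le_of_ne h3 (Ne.symm hjb)⟩)

/-- change of constants and coordinates -/
lemma OrdInv_comap {κ κ' J ι ι' C : Type} [LinearOrder J] {e : Str (κ ⊕ J × ι) C}
    (he : OrdInv e) (ρ : κ' → κ) (τ : ι' → ι) :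
    OrdInv (fun l : List (κ' ⊕ J × ι') => e (l.map (Sum.map ρ (Prod.map id τ)))) := by
  intro l f hf
  show e ((l.map (mapIdx f)).map (Sum.map ρ (Prod.map id τ))) =
    e (l.map (Sum.map ρ (Prod.map id τ)))
  rw [List.map_map, ← he (l.map (Sum.map ρ (Prod.map id τ))) f, List.map_map]
  · congr 2
    funext x
    rcases x with x | ⟨j, i⟩ <;> rfl
  · refine hf.mono ?_
    rintro j ⟨i, hi⟩
    obtain ⟨x, hx, hx'⟩ := List.mem_map.1 hi
    rcases x with x | ⟨j', i'⟩
    · simp at hx'
    · simp only [Sum.map_inr, Prod.map, id] at hx'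
      have := Sum.inr_injective hx'
      obtain ⟨rfl, _⟩ := Prod.mk.inj this
      exact ⟨i', hx⟩

/-- order configurations with arbitrary finite types -/
lemma ordCfg_of {M C κ P S : Type} [Finite κ] [Finite P] [Finite S] {c : Str M C}
    (e : Str (κ ⊕ ℚ × (P ⊕ S)) C) (hb : Below e c) (ho : OrdInv e) (l : List (κ ⊕ (P ⊕ S)))
    (h : e (l.map (place 0 1)) ≠ e (l.map (place 1 0))) :
    OrdCfg c (Nat.card P + Nat.card S) := by
  classical
  have f1 := Finite.equivFin κ
  have f2 := Finite.equivFin P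
  have f3 := Finite.equivFin S
  refine ⟨Nat.card κ, Nat.card P, Nat.card S, rfl,
    fun l => e (l.map (Sum.map f1.symm (Prod.map id (Sum.map f2.symm f3.symm)))), ?_, ?_, ?_⟩
  · refine hb.comap ?_
    exact Sum.map_injective.2 ⟨f1.symm.injective, Function.injective_id.prodMap
      (Sum.map_injective.2 ⟨f2.symm.injective, f3.symm.injective⟩)⟩
  · exact OrdInv_comap ho _ _
  · refine ⟨l.map (Sum.map f1 (Sum.map f2 f3)), ?_⟩
    have key : ∀ a b : ℚ, ((l.map (Sum.map f1 (Sum.map f2 f3))).map (place a b)).map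
        (Sum.map f1.symm (Prod.map id (Sum.map f2.symm f3.symm))) = l.map (place a b) := by
      intro a b
      rw [List.map_map, List.map_map]
      congr 1
      funext x
      rcases x with x | x | x <;> simp [place]
    show e (((l.map (Sum.map f1 (Sum.map f2 f3))).map (place 0 1)).map
        (Sum.map f1.symm (Prod.map id (Sum.map f2.symm f3.symm)))) ≠
      e (((l.map (Sum.map f1 (Sum.map f2 f3))).map (place 1 0)).map
        (Sum.map f1.symm (Prod.map id (Sum.map f2.symm f3.symm))))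
    rw [key, key]
    exact h

lemma exists_list_map {α β : Type} {f : α → β} {l : List β} (h : ∀ x ∈ l, x ∈ range f) :
    ∃ l' : List α, l'.map f = l := by
  have : l ∈ range (List.map f) := by
    rw [Set.range_list_map]
    exact h
  exact this

end Pool.Agent.H18.UV
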