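import Pool.Agent.H18.UV.Common

/-!
Moving a tuple across the indices of another tuple; a criterion for `Many`.
-/

set_option autoImplicit false

open Set Filter

namespace Pool.Agent.H18.UV

open Pool.Agent.H72.UV

/-- place the second part at index `c` -/
def pl {κ ι : Type} (c : ℚ) : (κ ⊕ ℚ × ι) ⊕ ι → κ ⊕ ℚ × ι
  | Sum.inl x => x
  | Sum.inr t => Sum.inr (c, t)

lemma move_aux {M C : Type} (hS : T_SWAP) {c : Str M C} {μ : ℕ} (hμ : ∀ μ' < μ, ¬ OrdCfg c μ')
    {κ ι : Type} [Finite κ] [Finite ι] {e : Str (κ ⊕ ℚ × ι) C} (hb : Below e c) (ho : OrdInv e)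
    (l : List ((κ ⊕ ℚ × ι) ⊕ ι))
    (hsz : ∀ d, {i | Sum.inl (Sum.inr (d, i)) ∈ l}.ncard + {t | Sum.inr t ∈ l}.ncard < μ)
    (n : ℕ) : ∀ a b : ℚ, a ≤ b → (∀ i, Sum.inl (Sum.inr (a, i)) ∉ l) →
      (∀ i, Sum.inl (Sum.inr (b, i)) ∉ l) →
      ({d | ∃ i, Sum.inl (Sum.inr (d, i)) ∈ l} ∩ Ioo a b).ncard = n →
      e (l.map (pl a)) = e (l.map (pl b)) := by
  classical
  set D : Set ℚ := {d | ∃ i, Sum.inl (Sum.inr (d, i)) ∈ l} with hD
  have hDfin : D.Finite := by
    have h := usedIdx_finite (l.filterMap (fun x => Sum.elim (fun y => some y)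
      (fun _ => none) x))
    refine h.subset ?_
    rintro d ⟨i, hi⟩
    exact ⟨i, List.mem_filterMap.2 ⟨_, hi, rfl⟩⟩
  induction n with
  | zero =>
    intro a b hab ha hb' hn
    rw [Set.ncard_eq_zero (hDfin.subset inter_subset_left)] at hn
    have hout : ∀ d ∈ D, d < a ∨ b < d := by
      intro d hd
      by_contra hcon
      push Not at hcon
      have h1 : a < d := lt_of_le_of_ne hcon.1 (by
        rintro rfl
        obtain ⟨i, hi⟩ := hd
        exact ha i hi)
      have h2 : d < b := lt_of_le_of_ne hcon.2 (by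
        rintro rfl
        obtain ⟨i, hi⟩ := hd
        exact hb' i hi)
      have : d ∈ D ∩ Ioo a b := ⟨hd, h1, h2⟩
      rw [hn] at this
      exact this
    apply ordInv_congr ho
    · rintro (x | x) _ <;> rfl
    · intro x hx y hy u v u' v' i1 j1 i1' j1' h1 h2 h3 h4
      have key : ∀ (x : (κ ⊕ ℚ × ι) ⊕ ι), x ∈ l → ∀ u u' i1 i1', pl a x = Sum.inr (u, i1) →
          pl b x = Sum.inr (u', i1') → (u = u' ∧ (u < a ∨ b < u)) ∨ (u = a ∧ u' = b) := by
        rintro (x | x) hx u u' i1 i1' h1 h3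
        · left
          have h1' : x = Sum.inr (u, i1) := h1
          have h3' : x = Sum.inr (u', i1') := h3
          have e1 : (Sum.inr (u, i1) : κ ⊕ ℚ × ι) = Sum.inr (u', i1') := h1'.symm.trans h3'
          obtain ⟨rfl, -⟩ := Prod.mk.inj (Sum.inr_injective e1)
          exact ⟨rfl, hout u ⟨i1, h1' ▸ hx⟩⟩
        · right
          exact ⟨(Prod.mk.inj (Sum.inr_injective h1)).1.symm,
            (Prod.mk.inj (Sum.inr_injective h3)).1.symm⟩
      rcases key x hx _ _ _ _ h1 h3 with ⟨rfl, hx'⟩ | ⟨rfl, rfl⟩ <;>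
        rcases key y hy _ _ _ _ h2 h4 with ⟨rfl, hy'⟩ | ⟨rfl, rfl⟩
      · exact ⟨id, id⟩
      · rcases hx' with hx' | hx' <;> exact ⟨fun h => by linarith, fun h => by linarith⟩
      · rcases hy' with hy' | hy' <;> exact ⟨fun h => by linarith, fun h => by linarith⟩
      · exact ⟨fun h => absurd h (lt_irrefl _), fun _ => rfl⟩
  | succ n ih =>
    intro a b hab ha hb' hn
    have hne : (D ∩ Ioo a b).Nonempty := by
      rw [nonempty_iff_ne_empty]
      intro h0
      rw [h0, ncard_empty] at hn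
      omega
    obtain ⟨d, hd, hmin⟩ := Set.exists_min_image (D ∩ Ioo a b) id
      (hDfin.subset inter_subset_left) hne
    simp only [id] at hmin
    obtain ⟨hdD, had, hdb⟩ := hd
    obtain ⟨a'', ha'', h2⟩ := exists_gt_forall_le
      (((hDfin.subset (sep_subset D fun j => d < j))).insert b) (a := d) (by
        rintro j (rfl | hj)
        · exact hdb
        · exact hj.2)
    obtain ⟨c1, hc1, hc1'⟩ := exists_between ha''
    have hc1b : c1 < b := lt_of_lt_of_le hc1' (h2 b (mem_insert _ _))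
    have hgt : ∀ j ∈ D, d < j → c1 < j := fun j hj hdj =>
      lt_of_lt_of_le hc1' (h2 j (mem_insert_of_mem _ ⟨hj, hdj⟩))
    have hlow : ∀ j ∈ D, j < a ∨ d ≤ j := by
      intro j hj
      rcases lt_trichotomy j a with h | h | h
      · exact Or.inl h
      · subst h
        obtain ⟨i, hi⟩ := hj
        exact absurd hi (ha i)
      · right
        by_cases hjb : j < b
        · exact hmin j ⟨hj, h, hjb⟩
        · exact hdb.le.trans (not_lt.1 hjb)
    have hc1D : c1 ∉ D := fun h => lt_irrefl _ (hgt c1 h hc1)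
    have hstep2 : e (l.map (pl c1)) = e (l.map (pl b)) := by
      apply ih c1 b hc1b.le (fun i hi => hc1D ⟨i, hi⟩) hb'
      have : D ∩ Ioo c1 b = (D ∩ Ioo a b) \ {d} := by
        ext j
        constructor
        · rintro ⟨hj, h3, h4⟩
          exact ⟨⟨hj, had.trans (hc1.trans h3), h4⟩, fun h => by
            rw [mem_singleton_iff] at h
            subst h
            exact lt_irrefl _ (h3.trans hc1)⟩
        · rintro ⟨⟨hj, h3, h4⟩, h5⟩
          rw [mem_singleton_iff] at h5
          exact ⟨hj, hgt j hj (lt_of_le_of_ne (hmin j ⟨hj, h3, h4⟩) (Ne.symm h5)), h4⟩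
      have hmem : d ∈ D ∩ Ioo a b := ⟨hdD, had, hdb⟩
      rw [this, Set.ncard_sdiff_singleton_of_mem hmem, hn]
      rfl
    rw [← hstep2]
    have hsw := hS M C c μ hμ κ ι inferInstance inferInstance e hb ho (l.map (pl a)) a d
      ⟨had, by
        rintro j ⟨i, hi⟩
        obtain ⟨x, hx, hx'⟩ := List.mem_map.1 hi
        rcases x with x | x
        · have hx2 : x = Sum.inr (j, i) := hx'
          rcases hlow j ⟨i, hx2 ▸ hx⟩ with h | h
          · exact Or.inl h.le
          · exact Or.inr h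
        · exact Or.inl (Prod.mk.inj (Sum.inr_injective hx')).1.symm.le⟩ (by
        refine lt_of_le_of_lt ?_ (hsz d)
        have h1 : {i | Sum.inr (a, i) ∈ l.map (pl a)} ⊆ {t | Sum.inr t ∈ l} := by
          intro i hi
          obtain ⟨x, hx, hx'⟩ := List.mem_map.1 hi
          rcases x with x | x
          · have hx2 : x = Sum.inr (a, i) := hx'
            exact absurd (hx2 ▸ hx) (ha i)
          · have := (Prod.mk.inj (Sum.inr_injective hx')).2
            subst this
            exact hx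
        have h2 : {i | Sum.inr (d, i) ∈ l.map (pl a)} ⊆ {i | Sum.inl (Sum.inr (d, i)) ∈ l} := by
          intro i hi
          obtain ⟨x, hx, hx'⟩ := List.mem_map.1 hi
          rcases x with x | x
          · have hx2 : x = Sum.inr (d, i) := hx'
            show Sum.inl (Sum.inr (d, i)) ∈ l
            rw [← hx2]
            exact hx
          · exact absurd (Prod.mk.inj (Sum.inr_injective hx')).1 had.ne
        have h3 := Set.ncard_le_ncard h1 (toFinite _)
        have h4 := Set.ncard_le_ncard h2 (toFinite _)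
        omega)
    rw [← hsw, List.map_map]
    apply ordInv_congr ho
    · rintro (x | x) _
      · show Sum.map id Prod.snd (mapIdx _ x) = Sum.map id Prod.snd x
        rcases x with y | ⟨j, t⟩ <;> rfl
      · rfl
    · intro x hx y hy u v u' v' i1 j1 i1' j1' h1 h2 h3 h4
      have key : ∀ (x : (κ ⊕ ℚ × ι) ⊕ ι), x ∈ l → ∀ u u' i1 i1',
          (mapIdx (Equiv.swap a d) ∘ pl a) x = Sum.inr (u, i1) → pl c1 x = Sum.inr (u', i1') →
          (u = u' ∧ (u < a ∨ c1 < u)) ∨ (u = a ∧ u' = d) ∨ (u = d ∧ u' = c1) := by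
        rintro (x | x) hx u u' i1 i1' h1 h3
        · have h3' : x = Sum.inr (u', i1') := h3
          subst h3'
          have h1' : Sum.inr (Equiv.swap a d u', i1') = (Sum.inr (u, i1) : κ ⊕ ℚ × ι) := h1
          obtain ⟨h5, -⟩ := Prod.mk.inj (Sum.inr_injective h1')
          by_cases hd' : u' = d
          · right; left
            rw [hd', Equiv.swap_apply_right] at h5
            exact ⟨h5.symm, hd'⟩
          · left
            have hna : u' ≠ a := by
              rintro rfl
              exact ha _ hx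
            rw [Equiv.swap_apply_of_ne_of_ne hna hd'] at h5
            subst h5
            refine ⟨rfl, ?_⟩
            rcases hlow u' ⟨_, hx⟩ with h | h
            · exact Or.inl h
            · exact Or.inr (hgt u' ⟨_, hx⟩ (lt_of_le_of_ne h (Ne.symm hd')))
        · right; right
          have h1' : Sum.inr (Equiv.swap a d a, x) = (Sum.inr (u, i1) : κ ⊕ ℚ × ι) := h1
          rw [Equiv.swap_apply_left] at h1'
          exact ⟨(Prod.mk.inj (Sum.inr_injective h1')).1.symm,
            (Prod.mk.inj (Sum.inr_injective h3)).1.symm⟩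
      rcases key x hx _ _ _ _ h1 h3 with ⟨rfl, hx'⟩ | ⟨rfl, rfl⟩ | ⟨rfl, rfl⟩ <;>
        rcases key y hy _ _ _ _ h2 h4 with ⟨rfl, hy'⟩ | ⟨rfl, rfl⟩ | ⟨rfl, rfl⟩ <;>
        first
          | exact ⟨id, id⟩
          | (rcases hx' with hx' | hx' <;> exact ⟨fun h => by linarith, fun h => by linarith⟩)
          | (rcases hy' with hy' | hy' <;> exact ⟨fun h => by linarith, fun h => by linarith⟩)
          | exact ⟨fun h => by linarith, fun h => by linarith⟩

lemma move {M C : Type} (hS : T_SWAP) {c : Str M C} {μ : ℕ} (hμ : ∀ μ' < μ, ¬ OrdCfg c μ')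
    {κ ι : Type} [Finite κ] [Finite ι] {e : Str (κ ⊕ ℚ × ι) C} (hb : Below e c) (ho : OrdInv e)
    (l : List ((κ ⊕ ℚ × ι) ⊕ ι))
    (hsz : ∀ d, {i | Sum.inl (Sum.inr (d, i)) ∈ l}.ncard + {t | Sum.inr t ∈ l}.ncard < μ)
    (a b : ℚ) (ha : ∀ i, Sum.inl (Sum.inr (a, i)) ∉ l) (hb' : ∀ i, Sum.inl (Sum.inr (b, i)) ∉ l) :
    e (l.map (pl a)) = e (l.map (pl b)) := by
  rcases le_total a b with h | h
  · exact move_aux hS hμ hb ho l hsz _ a b h ha hb' rfl
  · exact (move_aux hS hμ hb ho l hsz _ b a h hb' ha rfl).symm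

/-- substitute tuples -/
def el {κ ι σ σ' : Type} (Z : σ → κ ⊕ ℚ × ι) (X : σ' → κ ⊕ ℚ × ι) :
    κ ⊕ (σ ⊕ σ') → κ ⊕ ℚ × ι := Sum.elim Sum.inl (Sum.elim Z X)

/-- a tuple spread over several indices does not feel the place of the test tuple -/
lemma test_const {M C : Type} (hS : T_SWAP) {c : Str M C} {μ : ℕ}
    (hμ : ∀ μ' < μ, ¬ OrdCfg c μ') {κ ι σ σ' : Type} [Finite κ] [Finite ι] [Finite σ] [Finite σ']
    {e : Str (κ ⊕ ℚ × ι) C} (hb : Below e c) (ho : OrdInv e)
    (hcard : Nat.card σ + Nat.card σ' ≤ μ) (l : List (κ ⊕ (σ ⊕ σ'))) (Z : σ → κ ⊕ ℚ × ι)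
    (hZ : ∀ d : ℚ, ¬ ∀ t, ∃ i, Z t = Sum.inr (d, i)) (τ : σ' → ι) (a b : ℚ)
    (ha : ∀ t i, Z t ≠ Sum.inr (a, i)) (hb' : ∀ t i, Z t ≠ Sum.inr (b, i)) :
    e (l.map (el Z fun t => Sum.inr (a, τ t))) = e (l.map (el Z fun t => Sum.inr (b, τ t))) := by
  classical
  let G : κ ⊕ (σ ⊕ σ') → (κ ⊕ ℚ × ι) ⊕ ι := fun x => match x with
    | Sum.inl y => Sum.inl (Sum.inl y)
    | Sum.inr (Sum.inl t) => Sum.inl (Z t)
    | Sum.inr (Sum.inr t) => Sum.inr (τ t)
  have hG : ∀ a : ℚ, l.map (el Z fun t => Sum.inr (a, τ t)) = (l.map G).map (pl a) := by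
    intro a
    rw [List.map_map]
    congr 1
    funext x
    rcases x with y | t | t <;> rfl
  have hidx : ∀ (d : ℚ) (i : ι), Sum.inl (Sum.inr (d, i)) ∈ l.map G → ∃ t, Z t = Sum.inr (d, i) := by
    intro d i h
    obtain ⟨x, hx, hx'⟩ := List.mem_map.1 h
    rcases x with y | t | t
    · exact absurd (Sum.inl_injective hx') (by simp)
    · exact ⟨t, Sum.inl_injective hx'⟩
    · exact absurd hx' (by simp [G])
  rw [hG, hG]
  apply move hS hμ hb ho
  · intro d
    have h1 : {i | Sum.inl (Sum.inr (d, i)) ∈ l.map G}.ncard < Nat.card σ := by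
      have h2 : ∀ i ∈ {i | Sum.inl (Sum.inr (d, i)) ∈ l.map G}, ∃ t, Z t = Sum.inr (d, i) :=
        fun i hi => hidx d i hi
      obtain ⟨t0, -⟩ := not_forall.1 (hZ d)
      have : Nonempty σ := ⟨t0⟩
      choose! F hF using h2
      have h3 : InjOn F {i | Sum.inl (Sum.inr (d, i)) ∈ l.map G} := by
        intro i hi j hj hij
        have e1 := hF i hi
        have e2 := hF j hj
        rw [hij, e2] at e1
        exact (Prod.mk.inj (Sum.inr_injective e1)).2.symm
      rw [← ncard_image_of_injOn h3]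
      have h4 : F '' {i | Sum.inl (Sum.inr (d, i)) ∈ l.map G} ⊂ univ := by
        rw [ssubset_univ_iff]
        intro h5
        apply hZ d
        intro t
        have : t ∈ F '' {i | Sum.inl (Sum.inr (d, i)) ∈ l.map G} := by rw [h5]; exact mem_univ t
        obtain ⟨i, hi, rfl⟩ := this
        exact ⟨i, hF i hi⟩
      have := Set.ncard_lt_ncard h4 (toFinite _)
      rwa [ncard_univ] at this
    have h2 : {t | Sum.inr t ∈ l.map G}.ncard ≤ Nat.card σ' := by
      have h3 : {t | Sum.inr t ∈ l.map G} ⊆ range τ := by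
        intro t ht
        obtain ⟨x, hx, hx'⟩ := List.mem_map.1 ht
        rcases x with y | s | s
        · exact absurd hx' (by simp [G])
        · exact absurd hx' (by simp [G])
        · exact ⟨s, Sum.inr_injective hx'⟩
      refine (Set.ncard_le_ncard h3 (toFinite _)).trans ?_
      rw [← image_univ, ← ncard_univ]
      exact ncard_image_le (toFinite _)
    omega
  · intro i h
    obtain ⟨t, ht⟩ := hidx _ _ h
    exact ha t i ht
  · intro i h
    obtain ⟨t, ht⟩ := hidx _ _ h
    exact hb' t i ht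

/-- a criterion for `Many` -/
lemma many_of {M A C : Type} [Countable A] {c : Str M C} (e : Str A C) (hb : Below e c)
    (K : Finset A) (B : (ℕ → Bool) → Set A) (hm : ∀ a, MeasurableSet {x | a ∈ B x})
    (hinf : ∀ x, (B x).Infinite) (hK : ∀ x, (K : Set A) ⊆ B x)
    (h : ∀ x y, ∀ φ : B x ≃ B y,
      (∀ l : List (B x), e (l.map fun z => (φ z).1) = e (l.map Subtype.val)) →
      (∀ z : B x, z.1 ∈ K → (φ z).1 = z.1) → x = y) : Many c := by
  refine ⟨A, inferInstance, e, K, B, hb, hm, hinf, hK, fun x => ?_⟩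
  refine (countable_singleton x).mono ?_
  rintro y ⟨f, ⟨hf, hf2⟩, hf3⟩
  have := h x y (BijOn.equiv f hf) (fun l => ?_) (fun z hz => hf3 _ hz)
  · exact this.symm
  · have h1 := hf2 (l.map Subtype.val) (by
      intro z hz
      obtain ⟨w, _, rfl⟩ := List.mem_map.1 hz
      exact w.2)
    rw [← h1, List.map_map]
    rfl

end Pool.Agent.H18.UV
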